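import Pool.Agent.H15.PM.H

/-!
# The lobes of `J`, and the contact inequality

`r2 = S^2 + c^2`, `S = sinh t`, `C = cosh t`, `c = cos θ`, `s = sin θ`, `u0 = S C`.
* `contact`: `Cl t θ L` implies `sum lam < 2 lamJ` for all `K > 0`, `u`: `Cl.q2` with `v = 8u`
  divided by `8`, plus `K^2/8` times `Cl.v`; `Xl = 4 r2`.
* `hJ_sin`: `sin (2 hJ) = S C sin 2θ / r2` and `r2 (cos 2θ - cos (2 hJ)) / sin 2θ = - s c`
  (`tan hJ = T tan θ`; `sin 2h = 2 tan h / (1 + tan^2 h)`, `C^2 c^2 + S^2 s^2 = r2`).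
* `psi_J`: `psi r2 1 u θ (hJ) = lamJ t θ 1 u`.
* `psi_min`: if `T tan θ < 1`, `lamJ t θ 1 (S C) <= 0`, then `lamJ t θ 1 (S C) <= psi r2 1 (S C) θ h`
  for all `|h| <= θ`. PROOF. `f h = - r2 cos 2h / sin 2θ - 2 S C h`, `f' h = 2 (r2/sin 2θ)(sin 2h -
  sin 2hJ)`, `hJ < π/4`: `f` decreases on `[-θ, hJ]` (there `sin 2h <= sin 2hJ`: for
  `h ∈ [-π/2, hJ]`), increases on `[hJ, π/2 - hJ]`, decreases on `[π/2 - hJ, π/2]`. So the minimum
  on `[-θ, θ]` is at `hJ` or at `θ`; `psi .. θ θ = θ (r - u/r)^2 >= 0` (`r^2 = r2`), i.e.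
  `r2 θ - 2uθ + u^2 θ / r2 = θ (r2 - u)^2 / r2`.
-/

open Complex MeasureTheory Set Filter Topology
open scoped ComplexConjugate Real

namespace Pool.Agent.H15.PM

open Pool.Agent.H36.SZ

private theorem J_r2pos {t : ℝ} (ht : 0 < t) (θ : ℝ) : 0 < r2 t θ := by
  unfold r2
  have h1 := Real.sinh_pos_iff.2 ht
  positivity

private theorem J_sum (t θ K u : ℝ) (L : List Lb) :
    (L.map (lam t θ K u)).sum =
      ((L.map Lb.E).sum - K ^ 2 * ((L.map Lb.M).sum - 2 * Xl t θ * (L.map Lb.b).sum)) / 8 -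
        2 * u * (L.map Lb.h).sum + u ^ 2 * (L.map Lb.b).sum / r2 t θ := by
  induction L with
  | nil => simp
  | cons l L ih =>
    simp only [List.map_cons, List.sum_cons, ih]
    unfold lam
    ring

theorem contact {t θ : ℝ} (ht : 0 < t) {L : List Lb} (hL : Cl t θ L) {K : ℝ} (hK : 0 < K) (u : ℝ) :
    (L.map (lam t θ K u)).sum < 2 * lamJ t θ K u := by
  rw [J_sum]
  have hr := J_r2pos ht θ
  have h1 := hL.q2 (8 * u)
  have h2 := hL.v
  have hX : Xl t θ = 4 * r2 t θ := by unfold Xl r2; ring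
  set E := (L.map Lb.E).sum
  set M := (L.map Lb.M).sum
  set B := (L.map Lb.b).sum
  set H := (L.map Lb.h).sum
  have h3 := mul_lt_mul_of_pos_left h2 (by positivity : 0 < K ^ 2 / 8)
  have e1 : (8 * u) ^ 2 / (2 * Xl t θ) * B = 8 * (u ^ 2 * B / r2 t θ) := by
    rw [hX]
    field_simp
    ring
  have e2 : (8 * u) ^ 2 / (2 * Xl t θ) * (2 * θ) = 16 * (u ^ 2 * θ / r2 t θ) := by
    rw [hX]
    field_simp
    ring
  rw [e1, e2] at h1
  rw [hX] at h3 ⊢
  unfold lamJ
  nlinarith [h1, h3]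

private theorem J_cpos {θ : ℝ} (h0 : 0 < θ) (h1 : θ < π / 2) : 0 < Real.cos θ :=
  Real.cos_pos_of_mem_Ioo ⟨by linarith, h1⟩

private theorem J_y (t : ℝ) {θ : ℝ} (hc : 0 < Real.cos θ) :
    Real.tanh t * Real.tan θ = Real.sinh t * Real.sin θ / (Real.cosh t * Real.cos θ) ∧
      1 + (Real.tanh t * Real.tan θ) ^ 2 = r2 t θ / (Real.cosh t ^ 2 * Real.cos θ ^ 2) := by
  have hC := Real.cosh_pos t
  have e1 : Real.tanh t * Real.tan θ = Real.sinh t * Real.sin θ / (Real.cosh t * Real.cos θ) := by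
    rw [Real.tanh_eq_sinh_div_cosh, Real.tan_eq_sin_div_cos, div_mul_div_comm]
  refine ⟨e1, ?_⟩
  rw [e1]
  have h5 := Real.sin_sq_add_cos_sq θ
  have h6 := Real.cosh_sq t
  have h7 : Real.sin θ ^ 2 = 1 - Real.cos θ ^ 2 := by linarith
  unfold r2
  field_simp
  rw [h7, h6]
  ring

private theorem div_eq_div_iff_of_J {y s v : ℝ} (hs : s ≠ 0) (h : s ^ 2 = v) :
    2 * (y / s) * (1 / s) = 2 * y / v := by
  rw [← h]
  field_simp

theorem hJ_sin {t θ : ℝ} (ht : 0 < t) (h0 : 0 < θ) (h1 : θ < π / 2) :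
    Real.sin (2 * hJ t θ) = Real.sinh t * Real.cosh t * Real.sin (2 * θ) / r2 t θ := by
  have hr := J_r2pos ht θ
  have hc := J_cpos h0 h1
  have hC := Real.cosh_pos t
  obtain ⟨e1, e2⟩ := J_y t hc
  unfold hJ
  rw [Real.sin_two_mul, Real.sin_arctan, Real.cos_arctan]
  have hpos : 0 < 1 + (Real.tanh t * Real.tan θ) ^ 2 := by positivity
  have e3 : 2 * (Real.tanh t * Real.tan θ / √(1 + (Real.tanh t * Real.tan θ) ^ 2)) *
      (1 / √(1 + (Real.tanh t * Real.tan θ) ^ 2)) =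
      2 * (Real.tanh t * Real.tan θ) / (1 + (Real.tanh t * Real.tan θ) ^ 2) := by
    have h5 : √(1 + (Real.tanh t * Real.tan θ) ^ 2) ≠ 0 := (Real.sqrt_pos.2 hpos).ne'
    have h6 := Real.sq_sqrt hpos.le
    rw [div_eq_div_iff_of_J h5 h6]
  rw [e3, e2, e1, Real.sin_two_mul]
  field_simp

theorem hJ_cos {t θ : ℝ} (ht : 0 < t) (h0 : 0 < θ) (h1 : θ < π / 2) :
    Real.cos (2 * hJ t θ) =
      (Real.cosh t ^ 2 * Real.cos θ ^ 2 - Real.sinh t ^ 2 * Real.sin θ ^ 2) / r2 t θ := by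
  have hr := J_r2pos ht θ
  have hc := J_cpos h0 h1
  have hC := Real.cosh_pos t
  obtain ⟨e1, e2⟩ := J_y t hc
  unfold hJ
  rw [Real.cos_two_mul, Real.cos_arctan]
  have hpos : 0 < 1 + (Real.tanh t * Real.tan θ) ^ 2 := by positivity
  rw [div_pow, Real.sq_sqrt hpos.le, one_pow, e2]
  have e4 : Real.cosh t ^ 2 * Real.cos θ ^ 2 - Real.sinh t ^ 2 * Real.sin θ ^ 2 =
      2 * (Real.cosh t ^ 2 * Real.cos θ ^ 2) - r2 t θ := by
    unfold r2
    have h5 := Real.sin_sq_add_cos_sq θ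
    have h6 := Real.cosh_sq t
    have h7 : Real.sin θ ^ 2 = 1 - Real.cos θ ^ 2 := by linarith
    rw [h7, h6]
    ring
  rw [e4]
  field_simp

theorem psi_J {t θ : ℝ} (ht : 0 < t) (h0 : 0 < θ) (h1 : θ < π / 2) (u : ℝ) :
    psi (r2 t θ) 1 u θ (hJ t θ) = lamJ t θ 1 u := by
  have hr := J_r2pos ht θ
  have hc := J_cpos h0 h1
  have hs : 0 < Real.sin θ := Real.sin_pos_of_pos_of_lt_pi h0 (by linarith [Real.pi_pos])
  have e0 : r2 t θ * (Real.cos (2 * θ) - Real.cos (2 * hJ t θ)) =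
      -(2 * Real.sin θ ^ 2 * Real.cos θ ^ 2) := by
    rw [hJ_cos ht h0 h1, mul_sub, mul_div_cancel₀ _ hr.ne', Real.cos_two_mul]
    unfold r2
    have h5 := Real.sin_sq_add_cos_sq θ
    have h6 := Real.cosh_sq t
    have h7 : Real.sin θ ^ 2 = 1 - Real.cos θ ^ 2 := by linarith
    rw [h7, h6]
    ring
  have e1 : r2 t θ * 1 * (Real.cos (2 * (1 * θ)) - Real.cos (2 * hJ t θ)) /
      Real.sin (2 * (1 * θ)) = -(Real.sin θ * Real.cos θ) := by
    rw [one_mul, mul_one, e0, Real.sin_two_mul]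
    field_simp
  unfold psi lamJ
  rw [e1]
  ring

private theorem J_der (a x : ℝ) :
    HasDerivAt (fun x => -Real.cos x - x * Real.sin a) (Real.sin x - Real.sin a) x := by
  have h1 := ((Real.hasDerivAt_cos x).neg).sub ((hasDerivAt_id x).mul_const (Real.sin a))
  have e : - -Real.sin x - 1 * Real.sin a = Real.sin x - Real.sin a := by ring
  rw [e] at h1
  exact h1

private theorem J_anti {a : ℝ} (h0 : 0 ≤ a) (h1 : a ≤ π / 2) :
    AntitoneOn (fun x : ℝ => -Real.cos x - x * Real.sin a) (Icc (-π) a) := by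
  apply antitoneOn_of_deriv_nonpos (convex_Icc _ _)
  · exact (by fun_prop : Continuous fun x : ℝ => -Real.cos x - x * Real.sin a).continuousOn
  · intro x _
    exact (J_der a x).differentiableAt.differentiableWithinAt
  · intro x hx
    rw [interior_Icc] at hx
    rw [(J_der a x).deriv]
    have hsa : 0 ≤ Real.sin a :=
      Real.sin_nonneg_of_nonneg_of_le_pi h0 (by linarith [Real.pi_pos])
    rcases le_total x 0 with h2 | h2
    · have := Real.sin_nonpos_of_nonpos_of_neg_pi_le h2 hx.1.le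
      linarith
    · have := Real.sin_le_sin_of_le_of_le_pi_div_two (x := x) (y := a) (by linarith [Real.pi_pos]) h1 hx.2.le
      linarith

private theorem J_mono {a : ℝ} (h0 : 0 ≤ a) (h1 : a ≤ π / 2) :
    MonotoneOn (fun x : ℝ => -Real.cos x - x * Real.sin a) (Icc a (π - a)) := by
  apply monotoneOn_of_deriv_nonneg (convex_Icc _ _)
  · exact (by fun_prop : Continuous fun x : ℝ => -Real.cos x - x * Real.sin a).continuousOn
  · intro x _
    exact (J_der a x).differentiableAt.differentiableWithinAt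
  · intro x hx
    rw [interior_Icc] at hx
    rw [(J_der a x).deriv]
    rcases le_total x (π / 2) with h2 | h2
    · have := Real.sin_le_sin_of_le_of_le_pi_div_two (x := a) (y := x) (by linarith [Real.pi_pos]) h2 hx.1.le
      linarith
    · have := Real.sin_le_sin_of_le_of_le_pi_div_two (x := a) (y := π - x)
        (by linarith [Real.pi_pos]) (by linarith) (by linarith [hx.2])
      rw [Real.sin_pi_sub] at this
      linarith

private theorem J_anti2 {a : ℝ} (h0 : 0 ≤ a) (h1 : a ≤ π / 2) :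
    AntitoneOn (fun x : ℝ => -Real.cos x - x * Real.sin a) (Icc (π - a) π) := by
  apply antitoneOn_of_deriv_nonpos (convex_Icc _ _)
  · exact (by fun_prop : Continuous fun x : ℝ => -Real.cos x - x * Real.sin a).continuousOn
  · intro x _
    exact (J_der a x).differentiableAt.differentiableWithinAt
  · intro x hx
    rw [interior_Icc] at hx
    rw [(J_der a x).deriv]
    have := Real.sin_le_sin_of_le_of_le_pi_div_two (x := π - x) (y := a)
      (by linarith [Real.pi_pos, hx.2]) h1 (by linarith [hx.1])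
    rw [Real.sin_pi_sub] at this
    linarith

theorem psi_min {t θ : ℝ} (ht : 0 < t) (h0 : 0 < θ) (h1 : θ < π / 2)
    (hT : Real.tanh t * Real.tan θ < 1)
    (hA : lamJ t θ 1 (Real.sinh t * Real.cosh t) ≤ 0) (h : ℝ) (hh : |h| ≤ 1 * θ) :
    lamJ t θ 1 (Real.sinh t * Real.cosh t) ≤ psi (r2 t θ) 1 (Real.sinh t * Real.cosh t) θ h := by
  have hr := J_r2pos ht θ
  have hs2 : 0 < Real.sin (2 * θ) :=
    Real.sin_pos_of_pos_of_lt_pi (by linarith) (by linarith)
  rw [one_mul] at hh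
  obtain ⟨hh1, hh2⟩ := abs_le.1 hh
  set a : ℝ := 2 * hJ t θ with ha
  have hT0 : 0 ≤ Real.tanh t * Real.tan θ :=
    mul_nonneg (by rw [Real.tanh_eq_sinh_div_cosh]; have := Real.sinh_pos_iff.2 ht; have := Real.cosh_pos t; positivity)
      (Real.tan_nonneg_of_nonneg_of_le_pi_div_two h0.le h1.le)
  have ha0 : 0 ≤ a := by
    rw [ha]
    have : 0 ≤ hJ t θ := by
      unfold hJ
      exact Real.arctan_nonneg.2 hT0
    linarith
  have ha1 : a ≤ π / 2 := by
    have : hJ t θ ≤ π / 4 := by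
      unfold hJ
      rw [← Real.arctan_one]
      exact Real.arctan_strictMono.monotone hT.le
    linarith
  have hu : Real.sinh t * Real.cosh t = r2 t θ / Real.sin (2 * θ) * Real.sin a := by
    rw [ha, hJ_sin ht h0 h1]
    field_simp
  have hdiff : ∀ h' : ℝ, psi (r2 t θ) 1 (Real.sinh t * Real.cosh t) θ h -
      psi (r2 t θ) 1 (Real.sinh t * Real.cosh t) θ h' =
      r2 t θ / Real.sin (2 * θ) * ((-Real.cos (2 * h) - 2 * h * Real.sin a) -
        (-Real.cos (2 * h') - 2 * h' * Real.sin a)) := by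
    intro h'
    unfold psi
    rw [one_mul]
    have e5 : ∀ X : ℝ, r2 t θ * 1 * (Real.cos (2 * θ) - X) / Real.sin (2 * θ) =
        r2 t θ / Real.sin (2 * θ) * (Real.cos (2 * θ) - X) := by
      intro X
      ring
    rw [e5, e5]
    linear_combination (-(2 * h) + 2 * h') * hu
  have hq : 0 ≤ r2 t θ / Real.sin (2 * θ) := by positivity
  have hsa : 0 ≤ Real.sin a := Real.sin_nonneg_of_nonneg_of_le_pi ha0 (by linarith [Real.pi_pos])
  by_cases hcase : 2 * h ≤ π - a
  · rw [← psi_J ht h0 h1]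
    have hg : (-Real.cos (2 * hJ t θ) - 2 * hJ t θ * Real.sin a) ≤
        (-Real.cos (2 * h) - 2 * h * Real.sin a) := by
      rw [← ha]
      rcases le_total (2 * h) a with h2 | h2
      · exact J_anti ha0 ha1 ⟨by linarith, h2⟩ ⟨by linarith [Real.pi_pos], le_rfl⟩ h2
      · exact J_mono ha0 ha1 ⟨le_rfl, by linarith⟩ ⟨h2, hcase⟩ h2
    have h3 := hdiff (hJ t θ)
    have h4 := mul_nonneg hq (sub_nonneg.2 hg)
    linarith
  · push Not at hcase
    have hg : (-Real.cos (2 * θ) - 2 * θ * Real.sin a) ≤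
        (-Real.cos (2 * h) - 2 * h * Real.sin a) :=
      J_anti2 ha0 ha1 ⟨hcase.le, by linarith⟩ ⟨by linarith, by linarith⟩ (by linarith)
    have h3 := hdiff θ
    have h4 := mul_nonneg hq (sub_nonneg.2 hg)
    have h5 : psi (r2 t θ) 1 (Real.sinh t * Real.cosh t) θ θ =
        θ * (r2 t θ - Real.sinh t * Real.cosh t) ^ 2 / r2 t θ := by
      unfold psi
      rw [one_mul, sub_self]
      field_simp
      ring
    have h6 : 0 ≤ θ * (r2 t θ - Real.sinh t * Real.cosh t) ^ 2 / r2 t θ := by positivity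
    linarith

end Pool.Agent.H15.PM
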