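import Mathlib

/-!
# Even and odd part of a path on `[-b, b]`

`ev g s = (g s + g (-s)) / 2`, `od g s = (g s - g (-s)) / 2`. The derivative of `ev g` is `od g'`,
that of `od g` is `ev g'`. Parallelogram law:
`∫_{-b}^b |g'|^2 - K^2 |g|^2 = 2 ∫_0^b (|od g'|^2 - K^2 |ev g|^2) + 2 ∫_0^b (|ev g'|^2 - K^2 |od g|^2)`.
-/

open Complex MeasureTheory Set Filter Topology
open scoped ComplexConjugate Real

namespace Pool.Agent.H15.PM

noncomputable def ev (g : ℝ → ℂ) (s : ℝ) : ℂ := (g s + g (-s)) / 2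
noncomputable def od (g : ℝ → ℂ) (s : ℝ) : ℂ := (g s - g (-s)) / 2

variable {g g' : ℝ → ℂ} {b : ℝ}

private theorem B_mem {s : ℝ} (hs : s ∈ Icc 0 b) : s ∈ Icc (-b) b :=
  ⟨by linarith [hs.1, hs.2], hs.2⟩

private theorem B_mem' {s : ℝ} (hs : s ∈ Icc 0 b) : -s ∈ Icc (-b) b :=
  ⟨by linarith [hs.1, hs.2], by linarith [hs.1, hs.2]⟩

private theorem B_neg (hg : ∀ s ∈ Icc (-b) b, HasDerivAt g (g' s) s) :
    ∀ s ∈ Icc 0 b, HasDerivAt (fun x => g (-x)) (-(g' (-s))) s := by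
  intro s hs
  have h1 : HasDerivAt g (g' (-s)) (-s) := hg (-s) (B_mem' hs)
  have h2 : HasDerivAt (fun x : ℝ => -x) (-1) s := hasDerivAt_neg s
  have h3 := HasDerivAt.scomp s h1 h2
  have h4 : (-1 : ℝ) • g' (-s) = -(g' (-s)) := by simp
  rw [h4] at h3
  exact h3

theorem ev_der (hg : ∀ s ∈ Icc (-b) b, HasDerivAt g (g' s) s) :
    ∀ s ∈ Icc 0 b, HasDerivAt (ev g) (od g' s) s := by
  intro s hs
  have h1 := hg s (B_mem hs)
  have h2 := B_neg hg s hs
  have h3 := (h1.add h2).div_const 2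
  have h4 : (g' s + -(g' (-s))) / 2 = od g' s := by unfold od; ring
  rw [h4] at h3
  exact h3

theorem od_der (hg : ∀ s ∈ Icc (-b) b, HasDerivAt g (g' s) s) :
    ∀ s ∈ Icc 0 b, HasDerivAt (od g) (ev g' s) s := by
  intro s hs
  have h1 := hg s (B_mem hs)
  have h2 := B_neg hg s hs
  have h3 := (h1.sub h2).div_const 2
  have h4 : (g' s - -(g' (-s))) / 2 = ev g' s := by unfold ev; ring
  rw [h4] at h3
  exact h3

private theorem B_cneg {k : ℝ → ℂ} (hc : ContinuousOn k (Icc (-b) b)) :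
    ContinuousOn (fun s => k (-s)) (Icc 0 b) :=
  hc.comp continuous_neg.continuousOn (fun _ hs => B_mem' hs)

private theorem B_cpos {k : ℝ → ℂ} (hc : ContinuousOn k (Icc (-b) b)) :
    ContinuousOn k (Icc 0 b) :=
  hc.mono (fun _ hs => B_mem hs)

theorem ev_cont (hc : ContinuousOn g' (Icc (-b) b)) : ContinuousOn (ev g') (Icc 0 b) :=
  ((B_cpos hc).add (B_cneg hc)).div_const 2

theorem od_cont (hc : ContinuousOn g' (Icc (-b) b)) : ContinuousOn (od g') (Icc 0 b) :=
  ((B_cpos hc).sub (B_cneg hc)).div_const 2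

theorem od_zero (g : ℝ → ℂ) : od g 0 = 0 := by
  simp [od]

/-- folding an integral over a symmetric interval -/
private theorem B_fold {E : Type*} [NormedAddCommGroup E] [NormedSpace ℝ E] {k : ℝ → E}
    (hb : 0 ≤ b) (hk : ContinuousOn k (Icc (-b) b)) :
    ∫ s in (-b)..b, k s = ∫ s in (0 : ℝ)..b, (k s + k (-s)) := by
  have hle : -b ≤ b := by linarith
  have i1 : IntervalIntegrable k volume (-b) 0 := by
    apply ContinuousOn.intervalIntegrable
    rw [uIcc_of_le (by linarith)]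
    exact hk.mono (Icc_subset_Icc le_rfl hb)
  have i2 : IntervalIntegrable k volume 0 b := by
    apply ContinuousOn.intervalIntegrable
    rw [uIcc_of_le hb]
    exact hk.mono (Icc_subset_Icc (by linarith) le_rfl)
  have i3 : IntervalIntegrable (fun s => k (-s)) volume 0 b := by
    apply ContinuousOn.intervalIntegrable
    rw [uIcc_of_le hb]
    exact hk.comp continuous_neg.continuousOn (fun _ hs => B_mem' hs)
  have h1 : ∫ s in (-b)..0, k s = ∫ s in (0 : ℝ)..b, k (-s) := by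
    have := intervalIntegral.integral_comp_neg (a := 0) (b := b) k
    rw [this, neg_zero]
  rw [← intervalIntegral.integral_add_adjacent_intervals i1 i2, h1,
    intervalIntegral.integral_add i2 i3, add_comm]

private theorem B_par (u v : ℂ) : ‖u‖ ^ 2 + ‖v‖ ^ 2 = 2 * ‖(u + v) / 2‖ ^ 2 + 2 * ‖(u - v) / 2‖ ^ 2 := by
  simp only [← Complex.normSq_eq_norm_sq, Complex.normSq_apply, Complex.div_ofNat_re,
    Complex.div_ofNat_im, Complex.add_re, Complex.add_im, Complex.sub_re, Complex.sub_im]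
  ring

theorem split (hb : 0 ≤ b) (hg : ∀ s ∈ Icc (-b) b, HasDerivAt g (g' s) s)
    (hc : ContinuousOn g' (Icc (-b) b)) (K : ℝ) :
    ∫ s in (-b)..b, (‖g' s‖ ^ 2 - K ^ 2 * ‖g s‖ ^ 2) =
      2 * (∫ s in (0 : ℝ)..b, (‖od g' s‖ ^ 2 - K ^ 2 * ‖ev g s‖ ^ 2)) +
      2 * (∫ s in (0 : ℝ)..b, (‖ev g' s‖ ^ 2 - K ^ 2 * ‖od g s‖ ^ 2)) := by
  have hgc : ContinuousOn g (Icc (-b) b) := fun s hs => (hg s hs).continuousAt.continuousWithinAt
  have hk : ContinuousOn (fun s => ‖g' s‖ ^ 2 - K ^ 2 * ‖g s‖ ^ 2) (Icc (-b) b) :=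
    (hc.norm.pow 2).sub (continuousOn_const.mul (hgc.norm.pow 2))
  rw [B_fold hb hk, ← intervalIntegral.integral_const_mul, ← intervalIntegral.integral_const_mul,
    ← intervalIntegral.integral_add]
  · apply intervalIntegral.integral_congr
    intro s _
    have e1 := B_par (g' s) (g' (-s))
    have e2 := B_par (g s) (g (-s))
    beta_reduce
    unfold ev od
    linear_combination e1 - K ^ 2 * e2
  · apply ContinuousOn.intervalIntegrable
    rw [uIcc_of_le hb]
    exact continuousOn_const.mul (((od_cont hc).norm.pow 2).sub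
      (continuousOn_const.mul ((ev_cont hgc).norm.pow 2)))
  · apply ContinuousOn.intervalIntegrable
    rw [uIcc_of_le hb]
    exact continuousOn_const.mul (((ev_cont hc).norm.pow 2).sub
      (continuousOn_const.mul ((od_cont hgc).norm.pow 2)))

theorem int_ev (hb : 0 ≤ b) (hg : ContinuousOn g (Icc (-b) b)) :
    ∫ s in (0 : ℝ)..b, ev g s = (∫ s in (-b)..b, g s) / 2 := by
  rw [B_fold hb hg, ← intervalIntegral.integral_div]
  rfl

private theorem B_exp_add (h : ℝ) : exp (h * I) + exp (-(h * I)) = 2 * (Real.cos h : ℂ) := by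
  rw [Complex.ofReal_cos, Complex.cos]
  ring_nf

private theorem B_exp_sub (h : ℝ) : exp (h * I) - exp (-(h * I)) = 2 * ((Real.sin h : ℂ) * I) := by
  rw [Complex.ofReal_sin, Complex.sin, neg_mul]
  have : (I : ℂ) * I = -1 := Complex.I_mul_I
  linear_combination (-(exp (-(h * I)) - exp (h * I))) * this

theorem ev_b {ρ h : ℝ} (hr : g b = (ρ : ℂ) * exp (h * I)) (hl : g (-b) = (ρ : ℂ) * exp (-(h * I))) :
    ‖ev g b‖ ^ 2 = ρ ^ 2 * Real.cos h ^ 2 := by
  have e : ev g b = ((ρ * Real.cos h : ℝ) : ℂ) := by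
    unfold ev
    rw [hr, hl, ← mul_add, B_exp_add]
    push_cast
    ring
  rw [e, Complex.norm_real, Real.norm_eq_abs, sq_abs]
  ring

theorem od_b {ρ h : ℝ} (hr : g b = (ρ : ℂ) * exp (h * I)) (hl : g (-b) = (ρ : ℂ) * exp (-(h * I))) :
    ‖od g b‖ ^ 2 = ρ ^ 2 * Real.sin h ^ 2 := by
  have e : od g b = ((ρ * Real.sin h : ℝ) : ℂ) * I := by
    unfold od
    rw [hr, hl, ← mul_sub, B_exp_sub]
    push_cast
    ring
  rw [e, norm_mul, Complex.norm_I, mul_one, Complex.norm_real, Real.norm_eq_abs, sq_abs]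
  ring

end Pool.Agent.H15.PM
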