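import Mathlib

/-!
# Inequalities on the half interval `[0, b]`

`f : ℝ → ℂ` is `C^1` on `[0, b]`.
* `half_e`: `K b < π/2`: `∫_0^b |f'|^2 - K^2 |f|^2 >= - K tan (K b) |f b|^2`.
  PROOF. `|f' + K tan (K s) f|^2 >= 0`, i.e. with `w s = K tan (K s)`, `w' = K^2 + w^2`,
  `d/ds (w |f|^2) = (K^2 + w^2) |f|^2 + 2 w Re (conj f f')`, so
  `|f'|^2 - K^2 |f|^2 + d/ds (w |f|^2) = |f' + w f|^2 >= 0`; integrate (`w 0 = 0`).
* `half_e'`: `K b = π/2`, `f b = 0`: `∫_0^b |f'|^2 - K^2 |f|^2 >= 0`: limit `K' ↑ K` in `half_e`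
  (the integral is `A - K'^2 B` with fixed `A`, `B`).
* `half_o`: `f 0 = 0`, `K b < π`: `>= K cot (K b) |f b|^2`.
  PROOF. `w s = K cot (K s)`, `w' = - K^2 - w^2`, `|f'|^2 - K^2 |f|^2 - d/ds (w |f|^2)
  = |f' - w f|^2 >= 0` on `[ε, b]`; `w ε |f ε|^2 -> 0` as `ε -> 0` because `|f ε| <= M ε`
  (`M` a bound of `|f'|` on `[0, b]`).
-/

open Complex MeasureTheory Set Filter Topology
open scoped ComplexConjugate Real

namespace Pool.Agent.H15.PM

theorem A_key {f f' : ℝ → ℂ} {v : ℝ → ℝ} {K a b : ℝ} (hab : a ≤ b)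
    (hf : ∀ s ∈ Icc a b, HasDerivAt f (f' s) s) (hc : ContinuousOn f' (Icc a b))
    (hv : ∀ s ∈ Icc a b, HasDerivAt v (K ^ 2 + v s ^ 2) s) :
    v a * ‖f a‖ ^ 2 - v b * ‖f b‖ ^ 2 ≤ ∫ s in a..b, (‖f' s‖ ^ 2 - K ^ 2 * ‖f s‖ ^ 2) := by
  have cf : ContinuousOn f (Icc a b) := fun s hs => (hf s hs).continuousAt.continuousWithinAt
  have cv : ContinuousOn v (Icc a b) := fun s hs => (hv s hs).continuousAt.continuousWithinAt
  have hd : ∀ s ∈ uIcc a b, HasDerivAt (fun s => v s * ‖f s‖ ^ 2)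
      ((K ^ 2 + v s ^ 2) * ‖f s‖ ^ 2 + v s * (2 * inner ℝ (f s) (f' s))) s := by
    intro s hs
    rw [uIcc_of_le hab] at hs
    exact (hv s hs).mul (hf s hs).norm_sq
  have cD : ContinuousOn (fun s => (K ^ 2 + v s ^ 2) * ‖f s‖ ^ 2 +
      v s * (2 * inner ℝ (f s) (f' s))) (Icc a b) :=
    ((continuousOn_const.add (cv.pow 2)).mul (cf.norm.pow 2)).add
      (cv.mul (continuousOn_const.mul (ContinuousOn.inner (𝕜 := ℝ) cf hc)))
  have iD : IntervalIntegrable (fun s => (K ^ 2 + v s ^ 2) * ‖f s‖ ^ 2 +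
      v s * (2 * inner ℝ (f s) (f' s))) volume a b := by
    apply ContinuousOn.intervalIntegrable
    rw [uIcc_of_le hab]
    exact cD
  have iG : IntervalIntegrable (fun s => ‖f' s‖ ^ 2 - K ^ 2 * ‖f s‖ ^ 2) volume a b := by
    apply ContinuousOn.intervalIntegrable
    rw [uIcc_of_le hab]
    exact (hc.norm.pow 2).sub (continuousOn_const.mul (cf.norm.pow 2))
  have h1 := intervalIntegral.integral_eq_sub_of_hasDerivAt hd iD
  have h2 : (0 : ℝ) ≤ ∫ s in a..b, ((‖f' s‖ ^ 2 - K ^ 2 * ‖f s‖ ^ 2) +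
      ((K ^ 2 + v s ^ 2) * ‖f s‖ ^ 2 + v s * (2 * inner ℝ (f s) (f' s)))) := by
    refine intervalIntegral.integral_nonneg hab fun s _ => ?_
    have e : (‖f' s‖ ^ 2 - K ^ 2 * ‖f s‖ ^ 2) +
        ((K ^ 2 + v s ^ 2) * ‖f s‖ ^ 2 + v s * (2 * inner ℝ (f s) (f' s))) =
        ‖f' s + v s • f s‖ ^ 2 := by
      rw [norm_add_sq_real, norm_smul, inner_smul_right, real_inner_comm, mul_pow,
        Real.norm_eq_abs, sq_abs]
      ring
    rw [e]
    positivity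
  rw [intervalIntegral.integral_add iG iD, h1] at h2
  linarith

theorem half_e {f f' : ℝ → ℂ} {K b : ℝ} (hf : ∀ s ∈ Icc 0 b, HasDerivAt f (f' s) s)
    (hc : ContinuousOn f' (Icc 0 b)) (hK : 0 < K) (hb : 0 ≤ b) (hKb : K * b < π / 2) :
    -(K * Real.tan (K * b)) * ‖f b‖ ^ 2 ≤ ∫ s in (0 : ℝ)..b, (‖f' s‖ ^ 2 - K ^ 2 * ‖f s‖ ^ 2) := by
  have h := A_key (v := fun s => K * Real.tan (K * s)) (K := K) hb hf hc (by
    intro s hs
    have hcos : Real.cos (K * s) ≠ 0 := by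
      apply ne_of_gt
      apply Real.cos_pos_of_mem_Ioo
      constructor
      · have := mul_nonneg hK.le hs.1
        linarith [Real.pi_pos]
      · have := mul_le_mul_of_nonneg_left hs.2 hK.le
        linarith
    have h1 := ((Real.hasDerivAt_tan hcos).comp s ((hasDerivAt_id s).const_mul K)).const_mul K
    refine h1.congr_deriv ?_
    rw [Real.tan_eq_sin_div_cos]
    have h2 := Real.sin_sq_add_cos_sq (K * s)
    field_simp
    nlinarith [h2])
  simp only [mul_zero, Real.tan_zero, zero_mul, zero_sub] at h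
  rw [neg_mul]
  exact h

theorem half_e' {f f' : ℝ → ℂ} {K b : ℝ} (hf : ∀ s ∈ Icc 0 b, HasDerivAt f (f' s) s)
    (hc : ContinuousOn f' (Icc 0 b)) (hK : 0 < K) (hb : 0 < b) (hKb : K * b = π / 2)
    (hfb : f b = 0) :
    0 ≤ ∫ s in (0 : ℝ)..b, (‖f' s‖ ^ 2 - K ^ 2 * ‖f s‖ ^ 2) := by
  have cf : ContinuousOn f (Icc 0 b) := fun s hs => (hf s hs).continuousAt.continuousWithinAt
  have i1 : IntervalIntegrable (fun s => ‖f' s‖ ^ 2) volume 0 b := by
    apply ContinuousOn.intervalIntegrable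
    rw [uIcc_of_le hb.le]
    exact hc.norm.pow 2
  have i2 : IntervalIntegrable (fun s => ‖f s‖ ^ 2) volume 0 b := by
    apply ContinuousOn.intervalIntegrable
    rw [uIcc_of_le hb.le]
    exact cf.norm.pow 2
  have e : ∀ L : ℝ, ∫ s in (0 : ℝ)..b, (‖f' s‖ ^ 2 - L ^ 2 * ‖f s‖ ^ 2) =
      (∫ s in (0 : ℝ)..b, ‖f' s‖ ^ 2) - L ^ 2 * ∫ s in (0 : ℝ)..b, ‖f s‖ ^ 2 := by
    intro L
    rw [intervalIntegral.integral_sub i1 (i2.const_mul _), intervalIntegral.integral_const_mul]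
  rw [e]
  have ht : Tendsto (fun L : ℝ => (∫ s in (0 : ℝ)..b, ‖f' s‖ ^ 2) -
      L ^ 2 * ∫ s in (0 : ℝ)..b, ‖f s‖ ^ 2) (𝓝[<] K) (𝓝 ((∫ s in (0 : ℝ)..b, ‖f' s‖ ^ 2) -
      K ^ 2 * ∫ s in (0 : ℝ)..b, ‖f s‖ ^ 2)) := by
    apply Tendsto.mono_left _ nhdsWithin_le_nhds
    apply Continuous.tendsto (f := fun L : ℝ => (∫ s in (0 : ℝ)..b, ‖f' s‖ ^ 2) -
      L ^ 2 * ∫ s in (0 : ℝ)..b, ‖f s‖ ^ 2)
    fun_prop
  refine ge_of_tendsto ht ?_
  filter_upwards [Ioo_mem_nhdsLT hK] with L hL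
  rw [← e]
  have h := half_e hf hc hL.1 hb.le (by
    have := mul_lt_mul_of_pos_right hL.2 hb
    linarith)
  rw [hfb] at h
  simpa using h

theorem half_o {f f' : ℝ → ℂ} {K b : ℝ} (hf : ∀ s ∈ Icc 0 b, HasDerivAt f (f' s) s)
    (hc : ContinuousOn f' (Icc 0 b)) (h0 : f 0 = 0) (hK : 0 < K) (hb : 0 < b) (hKb : K * b < π) :
    K * (Real.cos (K * b) / Real.sin (K * b)) * ‖f b‖ ^ 2 ≤
      ∫ s in (0 : ℝ)..b, (‖f' s‖ ^ 2 - K ^ 2 * ‖f s‖ ^ 2) := by
  have cf : ContinuousOn f (Icc 0 b) := fun s hs => (hf s hs).continuousAt.continuousWithinAt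
  have iG : IntegrableOn (fun s => ‖f' s‖ ^ 2 - K ^ 2 * ‖f s‖ ^ 2) (uIcc 0 b) := by
    apply ContinuousOn.integrableOn_compact isCompact_uIcc
    rw [uIcc_of_le hb.le]
    exact (hc.norm.pow 2).sub (continuousOn_const.mul (cf.norm.pow 2))
  have h0b : (0 : ℝ) ∈ Icc 0 b := ⟨le_rfl, hb.le⟩
  have T1 : Tendsto (fun ε => ∫ s in ε..b, (‖f' s‖ ^ 2 - K ^ 2 * ‖f s‖ ^ 2)) (𝓝[>] 0)
      (𝓝 (∫ s in (0 : ℝ)..b, (‖f' s‖ ^ 2 - K ^ 2 * ‖f s‖ ^ 2))) := by
    have h1 := intervalIntegral.continuousOn_primitive_interval_left iG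
    rw [uIcc_of_le hb.le] at h1
    have h2 : Tendsto _ _ _ := h1 0 h0b
    refine h2.mono_left ?_
    rw [← nhdsWithin_Ioc_eq_nhdsGT hb]
    exact nhdsWithin_mono _ Ioc_subset_Icc_self
  have T2 : Tendsto (fun ε => K * (Real.cos (K * ε) / Real.sin (K * ε)) * ‖f ε‖ ^ 2) (𝓝[>] 0)
      (𝓝 0) := by
    have hgt : (𝓝[>] (0 : ℝ)) ≤ 𝓝[≠] 0 := nhdsWithin_mono _ fun x hx => ne_of_gt hx
    have h1 := ((hasDerivAt_iff_tendsto_slope_zero.1 (hf 0 h0b)).mono_left hgt).norm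
    have h2 : HasDerivAt (fun s => Real.sin (K * s)) K 0 := by
      have := (Real.hasDerivAt_sin (K * 0)).comp (0 : ℝ) ((hasDerivAt_id (0 : ℝ)).const_mul K)
      refine this.congr_deriv ?_
      simp
    have h3 := ((hasDerivAt_iff_tendsto_slope_zero.1 h2).mono_left hgt).inv₀ hK.ne'
    have h4 : Tendsto (fun ε : ℝ => ‖f ε‖) (𝓝[>] 0) (𝓝 ‖f 0‖) :=
      ((hf 0 h0b).continuousAt.tendsto.mono_left nhdsWithin_le_nhds).norm
    have h5 : Tendsto (fun ε : ℝ => K * Real.cos (K * ε)) (𝓝[>] 0) (𝓝 (K * Real.cos (K * 0))) := by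
      apply Tendsto.mono_left _ nhdsWithin_le_nhds
      apply Continuous.tendsto (f := fun ε : ℝ => K * Real.cos (K * ε))
      fun_prop
    have h6 := ((h5.mul h3).mul h1).mul h4
    have h7 : K * Real.cos (K * 0) * K⁻¹ * ‖f' 0‖ * ‖f 0‖ = 0 := by
      rw [h0, norm_zero]
      exact mul_zero _
    rw [h7] at h6
    refine h6.congr' ?_
    filter_upwards [self_mem_nhdsWithin] with t ht
    have ht' : (0 : ℝ) < t := ht
    simp only [zero_add, sub_zero, mul_zero, Real.sin_zero, smul_eq_mul, h0, norm_smul, norm_inv,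
      Real.norm_eq_abs, abs_of_pos ht', mul_inv, inv_inv]
    by_cases hs : Real.sin (K * t) = 0
    · simp [hs]
    · field_simp
  have T3 := T1.add T2
  rw [add_zero] at T3
  refine ge_of_tendsto T3 ?_
  filter_upwards [Ioc_mem_nhdsGT hb] with ε hε
  have hsub : Icc ε b ⊆ Icc 0 b := Icc_subset_Icc_left hε.1.le
  have h := A_key (v := fun s => -(K * (Real.cos (K * s) / Real.sin (K * s)))) (K := K) hε.2
    (fun s hs => hf s (hsub hs)) (hc.mono hsub) (by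
      intro s hs
      have hs0 : 0 < s := lt_of_lt_of_le hε.1 hs.1
      have hsin : Real.sin (K * s) ≠ 0 := by
        apply ne_of_gt
        apply Real.sin_pos_of_pos_of_lt_pi (mul_pos hK hs0)
        have := mul_le_mul_of_nonneg_left hs.2 hK.le
        linarith
      have d0 : HasDerivAt (fun s : ℝ => K * s) K s := by
        have := (hasDerivAt_id s).const_mul K
        rwa [mul_one] at this
      have d1 : HasDerivAt (fun s : ℝ => Real.cos (K * s)) (-Real.sin (K * s) * K) s :=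
        (Real.hasDerivAt_cos (K * s)).comp s d0
      have d2 : HasDerivAt (fun s : ℝ => Real.sin (K * s)) (Real.cos (K * s) * K) s :=
        (Real.hasDerivAt_sin (K * s)).comp s d0
      have h1 := ((d1.div d2 hsin).const_mul K).neg
      refine h1.congr_deriv ?_
      have h2 := Real.sin_sq_add_cos_sq (K * s)
      field_simp
      nlinarith [h2])
  linarith

end Pool.Agent.H15.PM
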