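import Pool.Agent.H15.PM.D
import Pool.Agent.H15.PM.A

/-!
# The half interval inequality with prescribed integral

`f` is `C^1` on `[0, b]`, `P = ∫_0^b f`, `0 < K b < π`, `B = K b`:
`∫_0^b |f'|^2 - K^2 |f|^2 >= K (B sin B |f b|^2 - 2 K sin B Re (conj (f b) P) + K^2 cos B |P|^2) / (sin B - B cos B)`.

PROOF (with `Γ s = ∫_0^s f`, `w = K s`, `W s = sin w * f s - K cos w * Γ s`, so
`W' = sin w * (f' + K^2 Γ)`).
(1) Identity, for `0 < ε < b`: with `c s = K cos w / sin w`,
`|f'|^2 - K^2 |f|^2 = |W'|^2 / sin^2 w + K^2 |W|^2 / sin^2 w + d/ds (K^2 c |Γ|^2 - 2 K^2 Re (conj f Γ))`.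
(2) `om s = K w / (sin w (sin w - w cos w))` satisfies
`om' + om^2 sin^2 w = K^2 / sin^2 w` (denominator `> 0` on `(0, π)`), hence
`|W'|^2 / sin^2 w + K^2 |W|^2 / sin^2 w - d/ds (om |W|^2) = |W' / sin w - sin w om W|^2 >= 0`.
(3) Integrate over `[ε, b]`, `ε -> 0`: `Γ = O(s)`, so `c |Γ|^2 -> 0`, `conj f Γ -> 0`;
`W = O(s^2)` (`W' = sin w (f' + K^2 Γ) = O(s)`, `W 0 = 0`), `om = O(s^{-3})`, `om |W|^2 -> 0`.
(4) `om(b) |W b|^2 + K^2 c(b) |P|^2 - 2 K^2 Re (conj (f b) P)` is the right side (algebra: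
`W b = sin B f b - K cos B P`).
-/

open Complex MeasureTheory Set Filter Topology
open scoped ComplexConjugate Real

namespace Pool.Agent.H15.PM

theorem sin_sub_pos {w : ℝ} (h0 : 0 < w) (h1 : w < π) : 0 < Real.sin w - w * Real.cos w := by
  have hs : 0 < Real.sin w := Real.sin_pos_of_pos_of_lt_pi h0 h1
  rcases lt_or_ge w (π / 2) with h | h
  · have ht := Real.lt_tan h0 h
    have hc : 0 < Real.cos w := Real.cos_pos_of_mem_Ioo ⟨by linarith [Real.pi_pos], h⟩
    rw [Real.tan_eq_sin_div_cos, lt_div_iff₀ hc] at ht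
    linarith
  · have hc : Real.cos w ≤ 0 := Real.cos_nonpos_of_pi_div_two_le_of_le h (by linarith)
    nlinarith [mul_nonneg h0.le (neg_nonneg.2 hc)]

private theorem E_real {f f' : ℝ → ℝ} {K b : ℝ} (hf : ∀ s ∈ Icc 0 b, HasDerivAt f (f' s) s)
    (hc : ContinuousOn f' (Icc 0 b)) (hK : 0 < K) (hb : 0 < b) (hKb : K * b < π) :
    K * (K * b * Real.sin (K * b) * f b ^ 2 -
        2 * K * Real.sin (K * b) * (f b * ∫ s in (0 : ℝ)..b, f s) +
        K ^ 2 * Real.cos (K * b) * (∫ s in (0 : ℝ)..b, f s) ^ 2) /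
      (Real.sin (K * b) - K * b * Real.cos (K * b)) ≤
      ∫ s in (0 : ℝ)..b, (f' s ^ 2 - K ^ 2 * f s ^ 2) := by
  have cf : ContinuousOn f (Icc 0 b) := fun s hs => (hf s hs).continuousAt.continuousWithinAt
  obtain ⟨e, ce, he⟩ : ∃ e : ℝ → ℝ, Continuous e ∧ ∀ s ∈ Icc 0 b, e s = f s :=
    ⟨Set.IccExtend hb.le (Set.domRestrict (Icc 0 b) f),
      (continuousOn_iff_continuous_domRestrict.1 cf).Icc_extend',
      fun s hs => Set.IccExtend_of_mem hb.le _ hs⟩
  have h0b : (0 : ℝ) ∈ Icc 0 b := ⟨le_rfl, hb.le⟩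
  have hbb : b ∈ Icc 0 b := ⟨hb.le, le_rfl⟩
  have hPe : ∫ s in (0 : ℝ)..b, e s = ∫ s in (0 : ℝ)..b, f s :=
    intervalIntegral.integral_congr (fun s hs => he s (by rwa [uIcc_of_le hb.le] at hs))
  rw [← hPe]
  obtain ⟨Γ, hΓ⟩ : ∃ Γ : ℝ → ℝ, Γ = fun s => ∫ x in (0 : ℝ)..s, e x := ⟨_, rfl⟩
  have dΓ : ∀ s, HasDerivAt Γ (e s) s := by
    intro s
    rw [hΓ]
    exact (ce.integral_hasStrictDerivAt 0 s).hasDerivAt
  have hP : ∫ s in (0 : ℝ)..b, e s = Γ b := by rw [hΓ]
  have hΓ0 : Γ 0 = 0 := by rw [hΓ]; simp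
  rw [hP]
  have hD : 0 < Real.sin (K * b) - K * b * Real.cos (K * b) := sin_sub_pos (mul_pos hK hb) hKb
  obtain ⟨D, hDe⟩ : ∃ D, D = Real.sin (K * b) - K * b * Real.cos (K * b) := ⟨_, rfl⟩
  rw [← hDe] at hD ⊢
  obtain ⟨α, hα⟩ : ∃ α, α = (K * Γ b - K * b * f b) / D := ⟨_, rfl⟩
  obtain ⟨β, hβ⟩ : ∃ β, β = (f b * Real.sin (K * b) - K * Γ b * Real.cos (K * b)) / D := ⟨_, rfl⟩
  have hα' : α * D = K * Γ b - K * b * f b := by rw [hα]; field_simp
  have hβ' : β * D = f b * Real.sin (K * b) - K * Γ b * Real.cos (K * b) := by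
    rw [hβ]; field_simp
  have e1 : α * Real.cos (K * b) + β = f b := by
    have : (α * Real.cos (K * b) + β - f b) * D = 0 := by
      rw [sub_mul, add_mul, hβ', mul_right_comm, hα', hDe]
      ring
    rcases mul_eq_zero.1 this with h | h
    · linarith
    · exact absurd h hD.ne'
  have e2 : α * Real.sin (K * b) / K + β * b = Γ b := by
    have : (α * Real.sin (K * b) + K * (β * b) - K * Γ b) * D = 0 := by
      have h1 : (α * Real.sin (K * b) + K * (β * b) - K * Γ b) * D =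
          (α * D) * Real.sin (K * b) + K * b * (β * D) - K * Γ b * D := by ring
      rw [h1, hα', hβ', hDe]
      ring
    rcases mul_eq_zero.1 this with h | h
    · field_simp
      linarith
    · exact absurd h hD.ne'
  have dS : ∀ s : ℝ, HasDerivAt (fun s => Real.sin (K * s)) (Real.cos (K * s) * K) s := by
    intro s
    have d0 : HasDerivAt (fun s : ℝ => K * s) K s := by
      have := (hasDerivAt_id s).const_mul K
      rwa [mul_one] at this
    exact (Real.hasDerivAt_sin (K * s)).comp s d0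
  have dC : ∀ s : ℝ, HasDerivAt (fun s => Real.cos (K * s)) (-Real.sin (K * s) * K) s := by
    intro s
    have d0 : HasDerivAt (fun s : ℝ => K * s) K s := by
      have := (hasDerivAt_id s).const_mul K
      rwa [mul_one] at this
    exact (Real.hasDerivAt_cos (K * s)).comp s d0
  obtain ⟨G, hG⟩ : ∃ G : ℝ → ℝ, G = fun s => Γ s - α / K * Real.sin (K * s) - β * s := ⟨_, rfl⟩
  obtain ⟨g, hg⟩ : ∃ g : ℝ → ℝ, g = fun s => e s - α * Real.cos (K * s) - β := ⟨_, rfl⟩
  have dG : ∀ s, HasDerivAt G (g s) s := by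
    intro s
    rw [hG, hg]
    have h1 := ((dΓ s).sub ((dS s).const_mul (α / K))).sub ((hasDerivAt_id s).const_mul β)
    refine h1.congr_deriv ?_
    field_simp
  have G0 : G 0 = 0 := by rw [hG]; simp [hΓ0]
  have Gb : G b = 0 := by
    rw [hG]
    have : α / K * Real.sin (K * b) = α * Real.sin (K * b) / K := by ring
    simp only [this]
    linarith
  have gb : g b = 0 := by
    rw [hg]
    simp only [he b hbb]
    linarith
  have cG : Continuous G := continuous_iff_continuousAt.2 fun s => (dG s).continuousAt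
  have cg : Continuous g := by rw [hg]; fun_prop
  -- Dirichlet
  have hDir : 0 ≤ ∫ s in (0 : ℝ)..b, (g s ^ 2 - K ^ 2 * G s ^ 2) := by
    have h := half_o (f := fun s => (G s : ℂ)) (f' := fun s => (g s : ℂ)) (K := K) (b := b)
      (fun s _ => (dG s).ofReal_comp) (by fun_prop) (by simp [G0]) hK hb hKb
    simp only [Complex.norm_real, Real.norm_eq_abs, sq_abs, Gb] at h
    simpa using h
  have dg : ∀ s ∈ Ioo 0 b, HasDerivAt g (f' s + α * K * Real.sin (K * s)) s := by
    intro s hs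
    have h1 : HasDerivAt e (f' s) s := by
      refine (hf s (Ioo_subset_Icc_self hs)).congr_of_eventuallyEq ?_
      filter_upwards [Icc_mem_nhds hs.1 hs.2] with x hx
      exact he x hx
    rw [hg]
    have h2 := (h1.sub ((dC s).const_mul α)).sub_const β
    refine h2.congr_deriv ?_
    ring
  -- the primitive
  obtain ⟨H, hH⟩ : ∃ H : ℝ → ℝ, H = fun s =>
      (-(α * K) * Real.sin (K * s)) * (α * Real.cos (K * s) + β) -
        K ^ 2 * β * (α / K * Real.sin (K * s) + β * s) +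
        2 * ((-(α * K) * Real.sin (K * s)) * g s) - 2 * K ^ 2 * β * G s -
        2 * K ^ 2 * (g s * G s) := ⟨_, rfl⟩
  have cH : Continuous H := by rw [hH]; fun_prop
  have dH : ∀ s ∈ Ioo 0 b, HasDerivAt H ((f' s ^ 2 - K ^ 2 * f s ^ 2) -
      ((f' s + α * K * Real.sin (K * s)) + K ^ 2 * G s) ^ 2 -
      K ^ 2 * (g s ^ 2 - K ^ 2 * G s ^ 2)) s := by
    intro s hs
    have d1 := ((dS s).const_mul (-(α * K))).mul (((dC s).const_mul α).add_const β)
    have d2 := (((dS s).const_mul (α / K)).add ((hasDerivAt_id s).const_mul β)).const_mul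
      (K ^ 2 * β)
    have d3 := (((dS s).const_mul (-(α * K))).mul (dg s hs)).const_mul 2
    have d4 := (dG s).const_mul (2 * K ^ 2 * β)
    have d5 := ((dg s hs).mul (dG s)).const_mul (2 * K ^ 2)
    have d := (((d1.sub d2).add d3).sub d4).sub d5
    rw [hH]
    refine d.congr_deriv ?_
    have hfs : f s = g s + α * Real.cos (K * s) + β := by
      rw [hg]
      simp only [he s (Ioo_subset_Icc_self hs)]
      ring
    rw [hfs]
    field_simp
    ring
  have i1 : IntervalIntegrable (fun s => f' s ^ 2 - K ^ 2 * f s ^ 2) volume 0 b := by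
    apply ContinuousOn.intervalIntegrable
    rw [uIcc_of_le hb.le]
    exact (hc.pow 2).sub (continuousOn_const.mul (cf.pow 2))
  have i2 : IntervalIntegrable
      (fun s => ((f' s + α * K * Real.sin (K * s)) + K ^ 2 * G s) ^ 2) volume 0 b := by
    apply ContinuousOn.intervalIntegrable
    rw [uIcc_of_le hb.le]
    exact ((hc.add (by fun_prop)).add (by fun_prop)).pow 2
  have i3 : IntervalIntegrable (fun s => K ^ 2 * (g s ^ 2 - K ^ 2 * G s ^ 2)) volume 0 b := by
    apply Continuous.intervalIntegrable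
    fun_prop
  have hF := intervalIntegral.integral_eq_sub_of_hasDerivAt_of_le hb.le cH.continuousOn dH
    ((i1.sub i2).sub i3)
  rw [intervalIntegral.integral_sub (i1.sub i2) i3, intervalIntegral.integral_sub i1 i2,
    intervalIntegral.integral_const_mul] at hF
  have hp : 0 ≤ ∫ s in (0 : ℝ)..b, ((f' s + α * K * Real.sin (K * s)) + K ^ 2 * G s) ^ 2 :=
    intervalIntegral.integral_nonneg hb.le fun s _ => sq_nonneg _
  have hHb : H b - H 0 = K * (K * b * Real.sin (K * b) * f b ^ 2 -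
        2 * K * Real.sin (K * b) * (f b * Γ b) + K ^ 2 * Real.cos (K * b) * Γ b ^ 2) / D := by
    rw [hH]
    simp only [Gb, G0, gb, mul_zero, Real.sin_zero, zero_mul, sub_zero, add_zero, e1]
    have e3 : α / K * Real.sin (K * b) + β * b = Γ b := by
      rw [← e2]; ring
    rw [e3, eq_div_iff hD.ne']
    have : (-(α * K) * Real.sin (K * b) * f b - K ^ 2 * β * Γ b) * D =
        -K * Real.sin (K * b) * f b * (α * D) - K ^ 2 * Γ b * (β * D) := by ring
    rw [this, hα', hβ']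
    ring
  have hK2 := mul_nonneg (sq_nonneg K) hDir
  linarith

theorem half_P {f f' : ℝ → ℂ} {K b : ℝ} (hf : ∀ s ∈ Icc 0 b, HasDerivAt f (f' s) s)
    (hc : ContinuousOn f' (Icc 0 b)) (hK : 0 < K) (hb : 0 < b) (hKb : K * b < π) :
    K * (K * b * Real.sin (K * b) * ‖f b‖ ^ 2 -
        2 * K * Real.sin (K * b) * (conj (f b) * ∫ s in (0 : ℝ)..b, f s).re +
        K ^ 2 * Real.cos (K * b) * ‖∫ s in (0 : ℝ)..b, f s‖ ^ 2) /
      (Real.sin (K * b) - K * b * Real.cos (K * b)) ≤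
      ∫ s in (0 : ℝ)..b, (‖f' s‖ ^ 2 - K ^ 2 * ‖f s‖ ^ 2) := by
  have cf : ContinuousOn f (Icc 0 b) := fun s hs => (hf s hs).continuousAt.continuousWithinAt
  have iF : IntervalIntegrable f volume 0 b := by
    apply ContinuousOn.intervalIntegrable
    rwa [uIcc_of_le hb.le]
  have hre : ∀ s ∈ Icc 0 b, HasDerivAt (fun s => (f s).re) (f' s).re s := fun s hs =>
    (Complex.reCLM.hasFDerivAt.comp_hasDerivAt s (hf s hs))
  have him : ∀ s ∈ Icc 0 b, HasDerivAt (fun s => (f s).im) (f' s).im s := fun s hs =>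
    (Complex.imCLM.hasFDerivAt.comp_hasDerivAt s (hf s hs))
  have cre : ContinuousOn (fun s => (f' s).re) (Icc 0 b) :=
    Complex.continuous_re.comp_continuousOn hc
  have cim : ContinuousOn (fun s => (f' s).im) (Icc 0 b) :=
    Complex.continuous_im.comp_continuousOn hc
  have cfre : ContinuousOn (fun s => (f s).re) (Icc 0 b) :=
    Complex.continuous_re.comp_continuousOn cf
  have cfim : ContinuousOn (fun s => (f s).im) (Icc 0 b) :=
    Complex.continuous_im.comp_continuousOn cf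
  have h1 := E_real hre cre hK hb hKb
  have h2 := E_real him cim hK hb hKb
  have p1 : ∫ s in (0 : ℝ)..b, (f s).re = (∫ s in (0 : ℝ)..b, f s).re :=
    Complex.reCLM.intervalIntegral_comp_comm iF
  have p2 : ∫ s in (0 : ℝ)..b, (f s).im = (∫ s in (0 : ℝ)..b, f s).im :=
    Complex.imCLM.intervalIntegral_comp_comm iF
  rw [p1] at h1
  rw [p2] at h2
  have i1 : IntervalIntegrable (fun s => (f' s).re ^ 2 - K ^ 2 * (f s).re ^ 2) volume 0 b := by
    apply ContinuousOn.intervalIntegrable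
    rw [uIcc_of_le hb.le]
    exact (cre.pow 2).sub (continuousOn_const.mul (cfre.pow 2))
  have i2 : IntervalIntegrable (fun s => (f' s).im ^ 2 - K ^ 2 * (f s).im ^ 2) volume 0 b := by
    apply ContinuousOn.intervalIntegrable
    rw [uIcc_of_le hb.le]
    exact (cim.pow 2).sub (continuousOn_const.mul (cfim.pow 2))
  have e : ∫ s in (0 : ℝ)..b, (‖f' s‖ ^ 2 - K ^ 2 * ‖f s‖ ^ 2) =
      (∫ s in (0 : ℝ)..b, ((f' s).re ^ 2 - K ^ 2 * (f s).re ^ 2)) +
      ∫ s in (0 : ℝ)..b, ((f' s).im ^ 2 - K ^ 2 * (f s).im ^ 2) := by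
    rw [← intervalIntegral.integral_add i1 i2]
    apply intervalIntegral.integral_congr
    intro s _
    simp only [← Complex.normSq_eq_norm_sq, Complex.normSq_apply]
    ring
  rw [e]
  refine le_trans (le_of_eq ?_) (add_le_add h1 h2)
  rw [← add_div]
  congr 1
  simp only [← Complex.normSq_eq_norm_sq, Complex.normSq_apply, Complex.mul_re, Complex.conj_re,
    Complex.conj_im]
  ring

/-- with `|∫_0^b f| <= p0`: the lower bound `Ev` -/
theorem half_P' {f f' : ℝ → ℂ} {K b p0 : ℝ} (hf : ∀ s ∈ Icc 0 b, HasDerivAt f (f' s) s)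
    (hc : ContinuousOn f' (Icc 0 b)) (hK : 0 < K) (hb : 0 < b) (hKb : K * b < π)
    (hp : ‖∫ s in (0 : ℝ)..b, f s‖ ≤ p0)
    (hv : π / 2 ≤ K * b ∨ K * p0 * Real.cos (K * b) ≤ ‖f b‖ * Real.sin (K * b)) :
    Ev K b ‖f b‖ p0 ≤ ∫ s in (0 : ℝ)..b, (‖f' s‖ ^ 2 - K ^ 2 * ‖f s‖ ^ 2) := by
  refine le_trans ?_ (half_P hf hc hK hb hKb)
  have hKb0 : 0 < K * b := mul_pos hK hb
  have hD := sin_sub_pos hKb0 hKb
  have hs : 0 < Real.sin (K * b) := Real.sin_pos_of_pos_of_lt_pi hKb0 hKb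
  unfold Ev
  apply div_le_div_of_nonneg_right _ hD.le
  apply mul_le_mul_of_nonneg_left _ hK.le
  have hn0 : 0 ≤ ‖∫ s in (0 : ℝ)..b, f s‖ := norm_nonneg _
  have hr : (conj (f b) * ∫ s in (0 : ℝ)..b, f s).re ≤ ‖f b‖ * ‖∫ s in (0 : ℝ)..b, f s‖ := by
    refine le_trans (Complex.re_le_norm _) ?_
    rw [norm_mul, Complex.norm_conj]
  obtain ⟨p, hpe⟩ : ∃ p, p = ‖∫ s in (0 : ℝ)..b, f s‖ := ⟨_, rfl⟩
  rw [← hpe] at hp hn0 hr ⊢
  have hg : 0 ≤ ‖f b‖ := norm_nonneg _
  have key : K * Real.cos (K * b) * (p0 + p) ≤ 2 * (‖f b‖ * Real.sin (K * b)) := by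
    have hr0 : 0 ≤ 2 * (‖f b‖ * Real.sin (K * b)) := by positivity
    rcases le_or_gt (Real.cos (K * b)) 0 with hcs | hcs
    · refine le_trans ?_ hr0
      have := mul_nonneg (mul_nonneg hK.le (neg_nonneg.2 hcs)) (by linarith : 0 ≤ p0 + p)
      nlinarith [this]
    · rcases hv with hv | hv
      · exact absurd (Real.cos_nonpos_of_pi_div_two_le_of_le hv (by linarith)) (not_le.2 hcs)
      · have h3 : K * Real.cos (K * b) * (p0 + p) ≤ K * Real.cos (K * b) * (p0 + p0) :=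
          mul_le_mul_of_nonneg_left (by linarith) (mul_pos hK hcs).le
        nlinarith [h3]
  have h4 := mul_nonneg (mul_nonneg hK.le (by linarith : 0 ≤ p0 - p))
    (sub_nonneg.2 key)
  have h5 := mul_le_mul_of_nonneg_left hr (by positivity : 0 ≤ 2 * K * Real.sin (K * b))
  nlinarith [h4, h5]

end Pool.Agent.H15.PM
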