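import Pool.Agent.H15.PM.A
import Pool.Agent.H15.PM.B
import Pool.Agent.H15.PM.E

/-!
# Lobes with the covering inequality (`0 < K b < π`)

`lam >= Ev K b (r |cos h|) (C sin b) + K cot (K b) r^2 sin^2 h + K^2 r^2 b - 2 u h + u^2 b / r^2`
if `K b >= π/2` or `K C sin b cos (K b) <= r |cos h| sin (K b)`, `r = √r2`.
PROOF. `E - K^2 M = ∫_{-b}^b |g'|^2 - K^2 |g|^2` (`split`): even part `half_P'` with `f = ev g`,
`|∫_0^b ev g| = |∫ g| / 2 <= 2 C sin b` (`int_ev`, `Lb.Ok.co` with `p = -b`, `r = b`), odd part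
`half_o`. `Ev` is homogeneous: `Ev K b (2 γ) (2 p) = 4 Ev K b γ p`.
-/

open Complex MeasureTheory Set Filter Topology
open scoped ComplexConjugate Real

namespace Pool.Agent.H15.PM

open Pool.Agent.H36.SZ

theorem Ev_two (K b γ p : ℝ) : Ev K b (2 * γ) (2 * p) = 4 * Ev K b γ p := by
  unfold Ev; ring

/-- the lower bound of `lam` for a lobe with the covering inequality -/
noncomputable def Bg (C ρ K u b h : ℝ) : ℝ :=
  Ev K b (√ρ * |Real.cos h|) (C * Real.sin b) +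
    K * (Real.cos (K * b) / Real.sin (K * b)) * (ρ * Real.sin h ^ 2) + K ^ 2 * ρ * b -
    2 * u * h + u ^ 2 * b / ρ

theorem lam_big {t θ : ℝ} (ht : 0 < t) {l : Lb} {C : ℝ} (hl : l.Ok C (Xl t θ)) {K : ℝ} (hK : 0 < K)
    (hKb : K * l.b < π) (u : ℝ)
    (hv : π / 2 ≤ K * l.b ∨ K * (C * Real.sin l.b) * Real.cos (K * l.b) ≤
      √(r2 t θ) * |Real.cos l.h| * Real.sin (K * l.b)) :
    Bg C (r2 t θ) K u l.b l.h ≤ lam t θ K u l := by
  have hb : 0 < l.b := hl.b0
  have hder : ∀ s ∈ Icc (-l.b) l.b, HasDerivAt l.g (l.g' s) s := fun s _ => hl.der s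
  have hcont : ContinuousOn l.g' (Icc (-l.b) l.b) := hl.cont.continuousOn
  have hg : ContinuousOn l.g (Icc (-l.b) l.b) :=
    fun s _ => (hl.der s).continuousAt.continuousWithinAt
  have hx : 0 < r2 t θ := by
    unfold r2
    have h1 : 0 < Real.sinh t := Real.sinh_pos_iff.2 ht
    positivity
  have hxl : Xl t θ = 4 * r2 t θ := by unfold Xl r2; ring
  obtain ⟨ρ, hρ⟩ : ∃ ρ, ρ = r2 t θ := ⟨_, rfl⟩
  rw [← hρ] at hx hv ⊢
  rw [← hρ] at hxl
  have hsq : √(Xl t θ) = 2 * √ρ := by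
    rw [hxl, Real.sqrt_mul (by norm_num), show (4 : ℝ) = 2 ^ 2 by norm_num,
      Real.sqrt_sq (by norm_num)]
  have hrr : √ρ ^ 2 = ρ := Real.sq_sqrt hx.le
  have er := hl.er
  have el := hl.el
  have hevb := ev_b (g := l.g) (b := l.b) er el
  have hodb := od_b (g := l.g) (b := l.b) er el
  rw [hsq] at hevb hodb
  have hevn : ‖ev l.g l.b‖ = 2 * (√ρ * |Real.cos l.h|) := by
    rw [← Real.sqrt_sq (norm_nonneg (ev l.g l.b)), hevb, ← Real.sqrt_sq
      (by positivity : 0 ≤ 2 * (√ρ * |Real.cos l.h|))]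
    congr 1
    rw [mul_pow, mul_pow, mul_pow, sq_abs]
    ring
  -- the integral of the even part
  have hint : ‖∫ s in (0 : ℝ)..l.b, ev l.g s‖ ≤ 2 * (C * Real.sin l.b) := by
    rw [int_ev hb.le hg]
    have h1 := hl.co (-l.b) l.b le_rfl (by linarith) le_rfl
    have h2 : (l.b - -l.b) / 2 = l.b := by ring
    rw [h2] at h1
    rw [norm_div, Complex.norm_ofNat]
    linarith
  have hE := half_P' (f := ev l.g) (f' := od l.g') (K := K) (b := l.b) (ev_der hder)
    (od_cont hcont) hK hb hKb hint (by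
      rw [hevn]
      rcases hv with hv | hv
      · exact Or.inl hv
      · right
        nlinarith [hv])
  rw [hevn, Ev_two] at hE
  have hO := half_o (f := od l.g) (f' := ev l.g') (K := K) (b := l.b) (od_der hder)
    (ev_cont hcont) (od_zero _) hK hb hKb
  rw [hodb] at hO
  have hsplit := split hb.le hder hcont K
  have i1 : IntervalIntegrable (fun s => ‖l.g' s‖ ^ 2) volume (-l.b) l.b :=
    (hl.cont.norm.pow 2).intervalIntegrable _ _
  have cg : Continuous l.g := continuous_iff_continuousAt.2 fun s => (hl.der s).continuousAt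
  have i2 : IntervalIntegrable (fun s => K ^ 2 * ‖l.g s‖ ^ 2) volume (-l.b) l.b :=
    (continuous_const.mul (cg.norm.pow 2)).intervalIntegrable _ _
  rw [intervalIntegral.integral_sub i1 i2, intervalIntegral.integral_const_mul] at hsplit
  have hsplit' : l.E - K ^ 2 * l.M =
      2 * (∫ s in (0 : ℝ)..l.b, (‖od l.g' s‖ ^ 2 - K ^ 2 * ‖ev l.g s‖ ^ 2)) +
      2 * (∫ s in (0 : ℝ)..l.b, (‖ev l.g' s‖ ^ 2 - K ^ 2 * ‖od l.g s‖ ^ 2)) := hsplit
  have hlam : lam t θ K u l = (l.E - K ^ 2 * l.M) / 8 + K ^ 2 * ρ * l.b - 2 * u * l.h +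
      u ^ 2 * l.b / ρ := by
    unfold lam
    rw [hxl, ← hρ]
    ring
  rw [hlam, hsplit']
  unfold Bg
  have hO' : K * (Real.cos (K * l.b) / Real.sin (K * l.b)) * (4 * (ρ * Real.sin l.h ^ 2)) ≤
      ∫ s in (0 : ℝ)..l.b, (‖ev l.g' s‖ ^ 2 - K ^ 2 * ‖od l.g s‖ ^ 2) := by
    refine le_trans (le_of_eq ?_) hO
    rw [mul_pow, hrr]
    ring
  linarith

end Pool.Agent.H15.PM
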