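import Pool.Agent.H36.SZ.LbD

/-!
# Contact analysis with a free multiplier: definitions

Notation (quarter units): at the level `x = Xl t θ = 4 sinh^2 t + 4 cos^2 θ` put `r^2 = x / 4`,
`S = sinh t`, `C = cosh t`, `T = tanh t`. For a lobe `l` (`Lb`, `Lb.Ok`) and real `K`, `u`
`lam t θ K u l = (1/8) (E - K^2 (M - 2 x b)) - 2 u h + u^2 b / r^2`;
`lamJ t θ K u` is its value on a lobe of `J`. A contact point (`Cl t θ L`) satisfies
`sum lam < 2 lamJ` for all `K > 0` and all real `u` (file `Ct`).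

`psi r K u b h` is the natural lower bound of `lam` for `K b < π/2`;
`Ev K C b γ` is the lower bound of the even part of a lobe with the covering inequality
`|∫ g| <= 4 C sin b` of the whole lobe, `γ = r cos h` (valid if `K b < π`).
-/

open Complex MeasureTheory Set Filter Topology
open scoped ComplexConjugate Real

namespace Pool.Agent.H15.PM

open Pool.Agent.H36.SZ

/-- `r ^ 2 = x / 4` -/
noncomputable def r2 (t θ : ℝ) : ℝ := Real.sinh t ^ 2 + Real.cos θ ^ 2

/-- the functional of one lobe -/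
noncomputable def lam (t θ K u : ℝ) (l : Lb) : ℝ :=
  (l.E - K ^ 2 * (l.M - 2 * Xl t θ * l.b)) / 8 - 2 * u * l.h + u ^ 2 * l.b / r2 t θ

/-- the value of the functional on a lobe of `J` -/
noncomputable def lamJ (t θ K u : ℝ) : ℝ :=
  (θ * Real.cosh (2 * t) - Real.sin θ * Real.cos θ) / 2 -
    K ^ 2 * (θ * Real.cosh (2 * t) + Real.sin θ * Real.cos θ) / 2 + K ^ 2 * r2 t θ * θ -
    2 * u * hJ t θ + u ^ 2 * θ / r2 t θ

/-- the natural lower bound (`K b < π / 2`) -/
noncomputable def psi (ρ K u b h : ℝ) : ℝ :=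
  ρ * K * (Real.cos (2 * (K * b)) - Real.cos (2 * h)) / Real.sin (2 * (K * b)) + K ^ 2 * ρ * b -
    2 * u * h + u ^ 2 * b / ρ

/-- even part with `|P| = p`: the minimum of `∫_0^b |f'|^2 - K^2 |f|^2` with `f b = γ`,
`∫_0^b f = p`, `B = K b` -/
noncomputable def Ev (K b γ p : ℝ) : ℝ :=
  K * (K * b * Real.sin (K * b) * γ ^ 2 - 2 * K * Real.sin (K * b) * γ * p +
    K ^ 2 * Real.cos (K * b) * p ^ 2) / (Real.sin (K * b) - K * b * Real.cos (K * b))

end Pool.Agent.H15.PM
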