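import Mathlib

/-!
# Monotonicity of the natural bound in the length of the lobe

`kap η b = sin ((1+η) b) sin ((1-η) b) / (b sin b cos b)` is nondecreasing in `b ∈ (0, π/2)`, for
`|η| <= 1`.

PROOF. WLOG `0 <= η` (even in `η`); `η = 1`: `kap = 0`. For `0 <= η < 1` and `0 < b < π/2` all
factors are positive and the logarithmic derivative is
`φ (1+η) + φ (1-η) - 1/b - cot b + tan b` with `φ x = x cot (x b)`, `φ 0 = 1/b`.
`y cot y` is concave on `[0, π)` (value `1` at `0`): second derivative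
`2 (y cos y - sin y) / sin^3 y <= 0`. Hence `φ (1+η) + φ (1-η) >= φ 2 + φ 0 = 2 cot 2b + 1/b`
and `2 cot 2b = cot b - tan b`. So the logarithmic derivative is `>= 0`.
(Equivalent form without concavity of `φ` at `0`: for `0 < η < 1`,
`(1+η) b cot ((1+η) b) + (1-η) b cot ((1-η) b) >= 2 b cot 2b + 1`: the left side is nonincreasing
in `η ∈ [0, 1)`, its derivative in `η` is `b (m ((1+η) b) - m ((1-η) b))` with
`m y = cot y - y / sin^2 y` nonincreasing on `(0, π)`; limit `η -> 1`.)
-/

open Real Set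

namespace Pool.Agent.H15.PM

noncomputable def kap (η b : ℝ) : ℝ :=
  sin ((1 + η) * b) * sin ((1 - η) * b) / (b * sin b * cos b)

private theorem G_aux {s : ℝ} (h0 : 0 ≤ s) (h1 : s ≤ 1) {t : ℝ} (ht : 0 ≤ t) (ht' : t ≤ π) :
    0 ≤ s * cos (s * t) * sin t - sin (s * t) * cos t := by
  have hd : ∀ x : ℝ, HasDerivAt (fun t : ℝ => s * cos (s * t) * sin t - sin (s * t) * cos t)
      ((1 - s ^ 2) * sin (s * x) * sin x) x := by
    intro x
    have e0 : HasDerivAt (fun t : ℝ => s * t) s x := by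
      simpa using (hasDerivAt_id x).const_mul s
    have e1 : HasDerivAt (fun t : ℝ => cos (s * t)) (-sin (s * x) * s) x := e0.cos
    have e2 : HasDerivAt (fun t : ℝ => sin (s * t)) (cos (s * x) * s) x := e0.sin
    have e3 := ((e1.const_mul s).mul (Real.hasDerivAt_sin x)).sub (e2.mul (Real.hasDerivAt_cos x))
    refine e3.congr_deriv ?_
    ring
  have hm : MonotoneOn (fun t : ℝ => s * cos (s * t) * sin t - sin (s * t) * cos t)
      (Icc 0 π) := by
    refine monotoneOn_of_deriv_nonneg (convex_Icc 0 π) ?_ ?_ ?_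
    · exact fun x _ => (hd x).continuousAt.continuousWithinAt
    · exact fun x _ => (hd x).differentiableAt.differentiableWithinAt
    · intro x hx
      rw [interior_Icc] at hx
      rw [(hd x).deriv]
      have a1 : 0 ≤ sin x := sin_nonneg_of_nonneg_of_le_pi hx.1.le hx.2.le
      have a2 : 0 ≤ sin (s * x) := sin_nonneg_of_nonneg_of_le_pi (mul_nonneg h0 hx.1.le)
        (by nlinarith [hx.1, hx.2])
      have a3 : 0 ≤ 1 - s ^ 2 := by nlinarith
      positivity
  have h := hm ⟨le_refl 0, pi_pos.le⟩ ⟨ht, ht'⟩ ht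
  simpa using h

private theorem G_ratio {s : ℝ} (h0 : 0 ≤ s) (h1 : s ≤ 1) {x y : ℝ} (hx : 0 < x) (hxy : x ≤ y)
    (hy : y < π) : sin (s * x) / sin x ≤ sin (s * y) / sin y := by
  have hpos : ∀ t ∈ Icc x y, 0 < sin t := fun t ht =>
    sin_pos_of_pos_of_lt_pi (lt_of_lt_of_le hx ht.1) (lt_of_le_of_lt ht.2 hy)
  have hd : ∀ t ∈ Icc x y, HasDerivAt (fun t : ℝ => sin (s * t) / sin t)
      ((cos (s * t) * s * sin t - sin (s * t) * cos t) / sin t ^ 2) t := by
    intro t ht
    have e0 : HasDerivAt (fun t : ℝ => s * t) s t := by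
      simpa using (hasDerivAt_id t).const_mul s
    exact e0.sin.div (Real.hasDerivAt_sin t) (hpos t ht).ne'
  have hm : MonotoneOn (fun t : ℝ => sin (s * t) / sin t) (Icc x y) := by
    refine monotoneOn_of_deriv_nonneg (convex_Icc x y) ?_ ?_ ?_
    · exact fun t ht => (hd t ht).continuousAt.continuousWithinAt
    · intro t ht
      rw [interior_Icc] at ht
      exact (hd t ⟨ht.1.le, ht.2.le⟩).differentiableAt.differentiableWithinAt
    · intro t ht
      rw [interior_Icc] at ht
      rw [(hd t ⟨ht.1.le, ht.2.le⟩).deriv]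
      have h := G_aux h0 h1 (hx.trans ht.1).le (ht.2.le.trans hy.le)
      refine div_nonneg ?_ (sq_nonneg _)
      linarith
  exact hm ⟨le_refl x, hxy⟩ ⟨hxy, le_refl y⟩ hxy

private theorem G_main {s : ℝ} (h0 : 0 ≤ s) (h1 : s ≤ 1) {x y : ℝ} (hx : 0 < x) (hxy : x ≤ y)
    (hy : y < π) : (cos (s * x) - cos x) / (x * sin x) ≤ (cos (s * y) - cos y) / (y * sin y) := by
  have hsx : 0 < sin x := sin_pos_of_pos_of_lt_pi hx (lt_of_le_of_lt hxy hy)
  have hy0 : 0 < y := lt_of_lt_of_le hx hxy
  have hsy : 0 < sin y := sin_pos_of_pos_of_lt_pi hy0 hy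
  have hd : ∀ t : ℝ, HasDerivAt (fun t : ℝ => (cos (t * y) - cos y) / (y * sin y) -
      (cos (t * x) - cos x) / (x * sin x)) (sin (t * x) / sin x - sin (t * y) / sin y) t := by
    intro t
    have e0 : ∀ z : ℝ, HasDerivAt (fun t : ℝ => t * z) z t := fun z => by
      simpa using (hasDerivAt_id t).mul_const z
    have e1 := (((e0 y).cos.sub_const (cos y)).div_const (y * sin y)).sub
      (((e0 x).cos.sub_const (cos x)).div_const (x * sin x))
    refine e1.congr_deriv ?_
    field_simp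
    ring
  have hm : AntitoneOn (fun t : ℝ => (cos (t * y) - cos y) / (y * sin y) -
      (cos (t * x) - cos x) / (x * sin x)) (Icc 0 1) := by
    refine antitoneOn_of_deriv_nonpos (convex_Icc 0 1) ?_ ?_ ?_
    · exact fun t _ => (hd t).continuousAt.continuousWithinAt
    · exact fun t _ => (hd t).differentiableAt.differentiableWithinAt
    · intro t ht
      rw [interior_Icc] at ht
      rw [(hd t).deriv]
      have h := G_ratio ht.1.le ht.2.le hx hxy hy
      linarith
  have h := hm ⟨h0, h1⟩ ⟨zero_le_one, le_refl 1⟩ h1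
  simp only [one_mul, sub_self, zero_div] at h
  linarith

private theorem G_kap {η b : ℝ} (hb : 0 < b) (hb' : b < π / 2) :
    kap η b = 2 * ((cos (|η| * (2 * b)) - cos (2 * b)) / (2 * b * sin (2 * b))) := by
  have hs : 0 < sin b := sin_pos_of_pos_of_lt_pi hb (by linarith [pi_pos])
  have hc : 0 < cos b := cos_pos_of_mem_Ioo ⟨by linarith [pi_pos], hb'⟩
  have h1 : cos (|η| * (2 * b)) = cos (η * (2 * b)) := by
    rw [← Real.cos_abs (η * (2 * b)), abs_mul, abs_of_pos (by linarith : (0:ℝ) < 2 * b)]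
  have h2 : cos (η * (2 * b)) - cos (2 * b) = 2 * (sin ((1 + η) * b) * sin ((1 - η) * b)) := by
    have e1 : η * (2 * b) = (1 + η) * b - (1 - η) * b := by ring
    have e2 : 2 * b = (1 + η) * b + (1 - η) * b := by ring
    have e3 : cos (2 * b) = cos ((1 + η) * b + (1 - η) * b) := by rw [← e2]
    rw [e1, e3, cos_sub, cos_add]
    ring
  rw [h1, h2, sin_two_mul]
  unfold kap
  field_simp
  try ring

theorem kap_mono {η : ℝ} (h0 : -1 ≤ η) (h1 : η ≤ 1) {b b' : ℝ} (hb : 0 < b) (hbb : b ≤ b')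
    (hb' : b' < π / 2) : kap η b ≤ kap η b' := by
  rw [G_kap hb (lt_of_le_of_lt hbb hb'), G_kap (lt_of_lt_of_le hb hbb) hb']
  have h := G_main (abs_nonneg η) (abs_le.2 ⟨h0, h1⟩) (x := 2 * b) (y := 2 * b') (by linarith)
    (by linarith) (by linarith)
  linarith

end Pool.Agent.H15.PM
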