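import Pool.Agent.H15.PM.L

/-!
# Lobes: large turning

* `turn_ge`: `E - K^2 (M - 2 x b) >= 2 x h^2 / b` if `K b <= π/2` and `K b <= |h|`.
  PROOF. (i) `|h| <= π/2`: `wirt`: `E >= (h/b)^2 M`, so
  `E - K^2 (M - 2xb) >= ((h/b)^2 - K^2) M + 2 K^2 x b >= ((h/b)^2 - K^2) 2xb + 2K^2xb = 2xh^2/b`.
  (ii) `|h| > π/2`: `a = Im (conj g g') / |g|^2`, `φ s = ∫_{-b}^s a - h` (`φ (±b) = ± h` by
  `Lb.Ok.turn`), `σ = π / (2|h|) < 1`, `z s = g s * exp (- (1 - σ) φ s I)`. Then `|z| = |g|`,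
  `z' = (g' - (1-σ) a I g) exp (..)`, `|z'|^2 = |g'|^2 - (1 - σ^2) a^2 |g|^2` on `[-b, b]`
  (`Re (conj (I g) g') = a |g|^2`), `z (±b) = √x exp (± σ h I)`, `|σ h| = π/2`. `wirt` for `z`:
  `∫ |z'|^2 >= (π/2b)^2 M`. `∫ a^2 |g|^2 >= x ∫ a^2 >= x (2h)^2 / (2b)` (Cauchy-Schwarz). So
  `E >= (π/2b)^2 M + (1-σ^2) 2 x h^2 / b` and with `K <= π/(2b)`, `M >= 2xb`:
  `E - K^2(M - 2xb) >= (π/2b)^2 2xb + (1-σ^2) 2xh^2/b = 2xh^2/b` (`σ^2 h^2 = π^2/4`).
* `lam_turn`: then `lam >= r2 h^2 / b - 2 u h + u^2 b / r2 = (r h/√b - u √b/r)^2 >= 0`.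
-/

open Complex MeasureTheory Set Filter Topology
open scoped ComplexConjugate Real

namespace Pool.Agent.H15.PM

open Pool.Agent.H36.SZ

variable {l : Lb} {C x : ℝ}

private theorem t_small (hl : l.Ok C x) {K : ℝ} (hK : 0 < K)
    (hh : K * l.b ≤ |l.h|) (h2 : |l.h| ≤ π / 2) :
    2 * x * l.h ^ 2 / l.b ≤ l.E - K ^ 2 * (l.M - 2 * x * l.b) := by
  have hb := hl.b0
  have cg : Continuous l.g := continuous_iff_continuousAt.2 fun u => (hl.der u).continuousAt
  have h1 := wirt (g := l.g) (g' := l.g') (b := l.b) (ρ := √x) (h := l.h) hb (fun s _ => hl.der s)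
    hl.cont.continuousOn hl.er hl.el h2
  have iA : IntervalIntegrable (fun s => ‖l.g' s‖ ^ 2) volume (-l.b) l.b :=
    (hl.cont.norm.pow 2).intervalIntegrable _ _
  have iB : IntervalIntegrable (fun s => (l.h / l.b) ^ 2 * ‖l.g s‖ ^ 2) volume (-l.b) l.b :=
    (continuous_const.mul (cg.norm.pow 2)).intervalIntegrable _ _
  rw [intervalIntegral.integral_sub iA iB, intervalIntegral.integral_const_mul] at h1
  change 0 ≤ l.E - (l.h / l.b) ^ 2 * l.M at h1
  have h3 := M_ge hl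
  have h4 : K ^ 2 ≤ (l.h / l.b) ^ 2 := by
    rw [div_pow, le_div_iff₀ (by positivity), ← mul_pow, ← sq_abs l.h]
    exact pow_le_pow_left₀ (by positivity) hh 2
  have h5 : 2 * x * l.h ^ 2 / l.b = ((l.h / l.b) ^ 2 - K ^ 2) * (2 * x * l.b) + K ^ 2 * (2 * x * l.b) := by
    field_simp
    ring
  rw [h5]
  have h6 := mul_le_mul_of_nonneg_left h3 (sub_nonneg.2 h4)
  linarith

private theorem t_large (hl : l.Ok C x) (hx : 0 < x) {K : ℝ} (hK : 0 < K) (hKb : K * l.b ≤ π / 2)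
    (h2 : π / 2 < |l.h|) :
    2 * x * l.h ^ 2 / l.b ≤ l.E - K ^ 2 * (l.M - 2 * x * l.b) := by
  have hb := hl.b0
  have hpi := Real.pi_pos
  have cg : Continuous l.g := continuous_iff_continuousAt.2 fun u => (hl.der u).continuousAt
  have hh0 : 0 < |l.h| := by linarith
  set σ : ℝ := π / (2 * |l.h|) with hσ
  have hσ0 : 0 < σ := by positivity
  have hσ1 : σ < 1 := by
    rw [hσ, div_lt_one (by positivity)]
    linarith
  have hσh : |σ * l.h| = π / 2 := by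
    rw [abs_mul, abs_of_pos hσ0, hσ]
    field_simp
  have hσh2 : σ ^ 2 * l.h ^ 2 = π ^ 2 / 4 := by
    rw [← mul_pow, ← sq_abs, hσh]
    ring
  -- the speed of turning
  set a : ℝ → ℝ := fun s => (conj (l.g s) * l.g' s).im / max (‖l.g s‖ ^ 2) x with ha
  have cnum : Continuous fun s => (conj (l.g s) * l.g' s).im :=
    Complex.continuous_im.comp ((Complex.continuous_conj.comp cg).mul hl.cont)
  have ca : Continuous a :=
    cnum.div ((cg.norm.pow 2).max continuous_const) fun s => (lt_of_lt_of_le hx (le_max_right _ _)).ne'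
  have ha1 : ∀ s ∈ Icc (-l.b) l.b, a s = (conj (l.g s) * l.g' s).im / ‖l.g s‖ ^ 2 := by
    intro s hs
    rw [ha]
    simp only
    rw [max_eq_left (hl.ge s hs)]
  have ha2 : ∀ s ∈ Icc (-l.b) l.b, (conj (l.g s) * l.g' s).im = a s * ‖l.g s‖ ^ 2 := by
    intro s hs
    have h3 : 0 < ‖l.g s‖ ^ 2 := lt_of_lt_of_le hx (hl.ge s hs)
    rw [ha1 s hs, div_mul_cancel₀ _ h3.ne']
  have hle : -l.b ≤ l.b := by linarith
  have hia : ∫ s in (-l.b)..l.b, a s = 2 * l.h := by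
    rw [← hl.turn]
    refine intervalIntegral.integral_congr fun s hs => ?_
    rw [uIcc_of_le hle] at hs
    exact ha1 s hs
  set φ : ℝ → ℝ := fun s => (∫ r in (-l.b)..s, a r) - l.h with hφ
  have dφ : ∀ s, HasDerivAt φ (a s) s := fun s =>
    (intervalIntegral.integral_hasDerivAt_right (ca.intervalIntegrable _ _)
      (ca.stronglyMeasurableAtFilter _ _) ca.continuousAt).sub_const _
  have φb : φ l.b = l.h := by
    simp only [hφ]
    rw [hia]
    ring
  have φmb : φ (-l.b) = -l.h := by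
    simp only [hφ]
    rw [intervalIntegral.integral_same]
    ring
  set e : ℝ → ℂ := fun s => exp (-(((1 - σ) * φ s : ℝ) : ℂ) * I) with he
  have ne : ∀ s, ‖e s‖ = 1 := by
    intro s
    simp only [he]
    rw [← Complex.ofReal_neg, Complex.norm_exp_ofReal_mul_I]
  have de : ∀ s, HasDerivAt e (e s * (-(((1 - σ) * a s : ℝ) : ℂ) * I)) s := by
    intro s
    have h3 : HasDerivAt (fun s => (((1 - σ) * φ s : ℝ) : ℂ)) (((1 - σ) * a s : ℝ) : ℂ) s :=
      ((dφ s).const_mul (1 - σ)).ofReal_comp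
    exact (h3.neg.mul_const I).cexp
  have ce : Continuous e := continuous_iff_continuousAt.2 fun s => (de s).continuousAt
  set z : ℝ → ℂ := fun s => l.g s * e s with hz
  set z' : ℝ → ℂ := fun s => l.g' s * e s + l.g s * (e s * (-(((1 - σ) * a s : ℝ) : ℂ) * I)) with hz'
  have dz : ∀ s, HasDerivAt z (z' s) s := fun s => (hl.der s).mul (de s)
  have cz' : Continuous z' := (hl.cont.mul ce).add (cg.mul (ce.mul
    ((Complex.continuous_ofReal.comp (continuous_const.mul ca)).neg.mul continuous_const)))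
  have nz : ∀ s, ‖z s‖ = ‖l.g s‖ := by
    intro s
    simp only [hz]
    rw [norm_mul, ne, mul_one]
  have nz' : ∀ s ∈ Icc (-l.b) l.b, ‖z' s‖ ^ 2 = ‖l.g' s‖ ^ 2 - (1 - σ ^ 2) * (a s ^ 2 * ‖l.g s‖ ^ 2) := by
    intro s hs
    have h3 : z' s = (l.g' s - (((1 - σ) * a s : ℝ) : ℂ) * (I * l.g s)) * e s := by
      simp only [hz']
      ring
    rw [h3, norm_mul, ne, mul_one]
    have h4 := ha2 s hs
    have h5 : ∀ c : ℝ, ‖l.g' s - (c : ℂ) * (I * l.g s)‖ ^ 2 =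
        ‖l.g' s‖ ^ 2 - 2 * c * (conj (l.g s) * l.g' s).im + c ^ 2 * ‖l.g s‖ ^ 2 := by
      intro c
      rw [← Complex.normSq_eq_norm_sq, ← Complex.normSq_eq_norm_sq, ← Complex.normSq_eq_norm_sq,
        Complex.normSq_apply, Complex.normSq_apply, Complex.normSq_apply]
      simp only [Complex.sub_re, Complex.sub_im, Complex.mul_re, Complex.mul_im, Complex.ofReal_re,
        Complex.ofReal_im, Complex.I_re, Complex.I_im, Complex.conj_re, Complex.conj_im]
      ring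
    rw [h5, h4]
    ring
  have hzr : z l.b = (√x : ℂ) * exp ((σ * l.h : ℝ) * I) := by
    simp only [hz, he]
    rw [hl.er, φb, mul_assoc, ← Complex.exp_add]
    congr 2
    push_cast
    ring
  have hzl : z (-l.b) = (√x : ℂ) * exp (-((σ * l.h : ℝ) * I)) := by
    simp only [hz, he]
    rw [hl.el, φmb, mul_assoc, ← Complex.exp_add]
    congr 2
    push_cast
    ring
  have h1 := wirt (g := z) (g' := z') (b := l.b) (ρ := √x) (h := σ * l.h) hb (fun s _ => dz s)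
    cz'.continuousOn hzr hzl hσh.le
  have h3 : ∫ s in (-l.b)..l.b, (‖z' s‖ ^ 2 - (σ * l.h / l.b) ^ 2 * ‖z s‖ ^ 2) =
      ∫ s in (-l.b)..l.b, ((‖l.g' s‖ ^ 2 - (1 - σ ^ 2) * (a s ^ 2 * ‖l.g s‖ ^ 2)) -
        (σ * l.h / l.b) ^ 2 * ‖l.g s‖ ^ 2) := by
    refine intervalIntegral.integral_congr fun s hs => ?_
    rw [uIcc_of_le hle] at hs
    rw [nz, nz' s hs]
  have iA : IntervalIntegrable (fun s => ‖l.g' s‖ ^ 2) volume (-l.b) l.b :=
    (hl.cont.norm.pow 2).intervalIntegrable _ _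
  have iB : IntervalIntegrable (fun s => (σ * l.h / l.b) ^ 2 * ‖l.g s‖ ^ 2) volume (-l.b) l.b :=
    (continuous_const.mul (cg.norm.pow 2)).intervalIntegrable _ _
  have iC : IntervalIntegrable (fun s => (1 - σ ^ 2) * (a s ^ 2 * ‖l.g s‖ ^ 2)) volume (-l.b) l.b :=
    (continuous_const.mul ((ca.pow 2).mul (cg.norm.pow 2))).intervalIntegrable _ _
  rw [h3, intervalIntegral.integral_sub (iA.sub iC) iB, intervalIntegral.integral_sub iA iC,
    intervalIntegral.integral_const_mul, intervalIntegral.integral_const_mul] at h1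
  change 0 ≤ l.E - (1 - σ ^ 2) * (∫ s in (-l.b)..l.b, a s ^ 2 * ‖l.g s‖ ^ 2) - (σ * l.h / l.b) ^ 2 * l.M at h1
  have h4 : x * (∫ s in (-l.b)..l.b, a s ^ 2) ≤ ∫ s in (-l.b)..l.b, a s ^ 2 * ‖l.g s‖ ^ 2 := by
    rw [← intervalIntegral.integral_const_mul]
    refine intervalIntegral.integral_mono_on hle ((continuous_const.mul (ca.pow 2)).intervalIntegrable _ _)
      (((ca.pow 2).mul (cg.norm.pow 2)).intervalIntegrable _ _) fun s hs => ?_
    rw [mul_comm]
    exact mul_le_mul_of_nonneg_left (hl.ge s hs) (sq_nonneg _)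
  have h5 : 2 * l.h ^ 2 / l.b ≤ ∫ s in (-l.b)..l.b, a s ^ 2 := by
    have h6 : 0 ≤ ∫ s in (-l.b)..l.b, (a s - l.h / l.b) ^ 2 :=
      intervalIntegral.integral_nonneg hle fun s _ => sq_nonneg _
    have h7 : ∫ s in (-l.b)..l.b, (a s - l.h / l.b) ^ 2 =
        (∫ s in (-l.b)..l.b, a s ^ 2) - 2 * (l.h / l.b) * (2 * l.h) + (l.h / l.b) ^ 2 * (2 * l.b) := by
      have h8 : ∀ s, (a s - l.h / l.b) ^ 2 = a s ^ 2 - 2 * (l.h / l.b) * a s + (l.h / l.b) ^ 2 := by
        intro s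
        ring
      simp only [h8]
      have i1 : IntervalIntegrable (fun s => a s ^ 2) volume (-l.b) l.b := (ca.pow 2).intervalIntegrable _ _
      have i2 : IntervalIntegrable (fun s => 2 * (l.h / l.b) * a s) volume (-l.b) l.b :=
        (continuous_const.mul ca).intervalIntegrable _ _
      have i3 : IntervalIntegrable (fun _ => (l.h / l.b) ^ 2) volume (-l.b) l.b :=
        continuous_const.intervalIntegrable _ _
      rw [intervalIntegral.integral_add (i1.sub i2) i3, intervalIntegral.integral_sub i1 i2,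
        intervalIntegral.integral_const_mul, hia, intervalIntegral.integral_const, smul_eq_mul]
      ring
    rw [h7] at h6
    have h8 : 2 * (l.h / l.b) * (2 * l.h) - (l.h / l.b) ^ 2 * (2 * l.b) = 2 * l.h ^ 2 / l.b := by
      field_simp
      ring
    linarith
  have h6 : x * (2 * l.h ^ 2 / l.b) ≤ ∫ s in (-l.b)..l.b, a s ^ 2 * ‖l.g s‖ ^ 2 :=
    (mul_le_mul_of_nonneg_left h5 hx.le).trans h4
  have hs2 : 0 ≤ 1 - σ ^ 2 := by nlinarith
  have h7 := mul_le_mul_of_nonneg_left h6 hs2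
  have h8 : (σ * l.h / l.b) ^ 2 = π ^ 2 / 4 / l.b ^ 2 := by
    rw [div_pow, mul_pow, hσh2]
  rw [h8] at h1
  have h9 : K ^ 2 ≤ π ^ 2 / 4 / l.b ^ 2 := by
    rw [le_div_iff₀ (by positivity), ← mul_pow]
    have := pow_le_pow_left₀ (by positivity) hKb 2
    linarith
  have h10 := mul_le_mul_of_nonneg_left (M_ge hl) (sub_nonneg.2 h9)
  have h11 : (1 - σ ^ 2) * (x * (2 * l.h ^ 2 / l.b)) =
      2 * x * l.h ^ 2 / l.b - 2 * x / l.b * (π ^ 2 / 4) := by
    rw [← hσh2]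
    ring
  have h12 : π ^ 2 / 4 / l.b ^ 2 * (2 * x * l.b) = 2 * x / l.b * (π ^ 2 / 4) := by
    field_simp
  linarith

theorem turn_ge (hl : l.Ok C x) (hx : 0 < x) {K : ℝ} (hK : 0 < K) (hKb : K * l.b ≤ π / 2)
    (hh : K * l.b ≤ |l.h|) :
    2 * x * l.h ^ 2 / l.b ≤ l.E - K ^ 2 * (l.M - 2 * x * l.b) := by
  rcases le_or_gt |l.h| (π / 2) with h | h
  · exact t_small hl hK hh h
  · exact t_large hl hx hK hKb h

theorem lam_turn {t θ : ℝ} (ht : 0 < t) {l : Lb} (hl : l.Ok C (Xl t θ)) {K : ℝ} (hK : 0 < K)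
    (hKb : K * l.b ≤ π / 2) (hh : K * l.b ≤ |l.h|) (u : ℝ) : 0 ≤ lam t θ K u l := by
  have hr := r2_pos ht θ
  have hb := hl.b0
  have h1 := turn_ge hl (by rw [Xl_eq]; positivity) hK hKb hh
  unfold lam
  have h2 : 2 * Xl t θ * l.h ^ 2 / l.b / 8 = r2 t θ * l.h ^ 2 / l.b := by
    rw [Xl_eq]
    ring
  have h3 : 0 ≤ r2 t θ * l.h ^ 2 / l.b - 2 * u * l.h + u ^ 2 * l.b / r2 t θ := by
    have h4 : r2 t θ * l.h ^ 2 / l.b - 2 * u * l.h + u ^ 2 * l.b / r2 t θ =
        (r2 t θ * l.h - u * l.b) ^ 2 / (r2 t θ * l.b) := by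
      field_simp
      ring
    rw [h4]
    positivity
  linarith

end Pool.Agent.H15.PM
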