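import Pool.Agent.H15.PM.G
import Pool.Agent.H15.PM.T

/-!
# Scaling of `psi`, and sums over short lobes

* `psi_kap`: `psi ρ K u b (η K b) = b (K^2 ρ (1 - kap η (K b)) - 2 u η K + u^2 / ρ)`
  (`cos 2 η B - cos 2B = 2 sin ((1+η) B) sin ((1-η) B)`).
* `psi_scale`: for `0 < b <= b'`, `K b' < π/2`, `|h| <= K b`:
  `psi ρ K u b h >= (b / b') psi ρ K u b' (h b' / b)` (`η = h / (K b)`, `kap_mono`).
* `lam_short`: if `m <= 0` and `m <= psi ρ K u b' h'` for all `|h'| <= K b'`, then every lobe with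
  `b <= b'` has `lam >= (b / b') m` (`|h| >= K b`: `lam_turn`, `lam >= 0 >= (b/b') m`;
  otherwise `lam_nat`, `psi_scale`).
* `sum_short`: if moreover the sum of the `b` of a list of such lobes is `<= b'` then
  the sum of their `lam` is `>= m`; in general it is `>= (sum b / b') m`.
-/

open Complex MeasureTheory Set Filter Topology
open scoped ComplexConjugate Real

namespace Pool.Agent.H15.PM

open Pool.Agent.H36.SZ

theorem psi_kap {ρ K u b η : ℝ} (hρ : 0 < ρ) (hK : 0 < K) (hb : 0 < b) (hKb : K * b < π / 2) :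
    psi ρ K u b (η * (K * b)) =
      b * (K ^ 2 * ρ * (1 - kap η (K * b)) - 2 * u * η * K + u ^ 2 / ρ) := by
  have hB : 0 < K * b := mul_pos hK hb
  have hs : 0 < Real.sin (K * b) := Real.sin_pos_of_pos_of_lt_pi hB (by linarith [Real.pi_pos])
  have hc : 0 < Real.cos (K * b) := Real.cos_pos_of_mem_Ioo ⟨by linarith, hKb⟩
  have h1 : Real.cos (2 * (K * b)) - Real.cos (2 * (η * (K * b))) =
      -(2 * (Real.sin ((1 + η) * (K * b)) * Real.sin ((1 - η) * (K * b)))) := by
    rw [Real.cos_sub_cos]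
    have e1 : (2 * (K * b) + 2 * (η * (K * b))) / 2 = (1 + η) * (K * b) := by ring
    have e2 : (2 * (K * b) - 2 * (η * (K * b))) / 2 = (1 - η) * (K * b) := by ring
    rw [e1, e2]
    ring
  unfold psi kap
  rw [h1, Real.sin_two_mul]
  field_simp
  ring

theorem psi_scale {ρ K u b b' h : ℝ} (hρ : 0 < ρ) (hK : 0 < K) (hb : 0 < b) (hbb : b ≤ b')
    (hKb : K * b' < π / 2) (hh : |h| ≤ K * b) :
    b / b' * psi ρ K u b' (h * b' / b) ≤ psi ρ K u b h := by
  have hb' : 0 < b' := lt_of_lt_of_le hb hbb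
  have hKbb : K * b ≤ K * b' := mul_le_mul_of_nonneg_left hbb hK.le
  have hB : 0 < K * b := mul_pos hK hb
  have hη : h = (h / (K * b)) * (K * b) := by field_simp
  have hη' : h * b' / b = (h / (K * b)) * (K * b') := by field_simp
  have ha : |h / (K * b)| ≤ 1 := by
    rw [abs_div, abs_of_pos hB, div_le_one hB]
    exact hh
  have ha' := abs_le.1 ha
  have hk := kap_mono (η := h / (K * b)) ha'.1 ha'.2 hB hKbb hKb
  have e1 := psi_kap (u := u) (η := h / (K * b)) hρ hK hb (lt_of_le_of_lt hKbb hKb)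
  have e2 := psi_kap (u := u) (η := h / (K * b)) hρ hK hb' hKb
  rw [← hη] at e1
  rw [← hη'] at e2
  rw [e1, e2]
  have e3 : b / b' * (b' * (K ^ 2 * ρ * (1 - kap (h / (K * b)) (K * b')) -
      2 * u * (h / (K * b)) * K + u ^ 2 / ρ)) =
      b * (K ^ 2 * ρ * (1 - kap (h / (K * b)) (K * b')) - 2 * u * (h / (K * b)) * K + u ^ 2 / ρ) := by
    have : b / b' * b' = b := by field_simp
    calc _ = (b / b' * b') * (K ^ 2 * ρ * (1 - kap (h / (K * b)) (K * b')) -
      2 * u * (h / (K * b)) * K + u ^ 2 / ρ) := by ring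
      _ = _ := by rw [this]
  rw [e3]
  apply mul_le_mul_of_nonneg_left _ hb.le
  have hp : 0 < K ^ 2 * ρ := by positivity
  have := mul_le_mul_of_nonneg_left hk hp.le
  linarith

theorem lam_short {t θ K u b' m C : ℝ} (ht : 0 < t) (hK : 0 < K) (hKb : K * b' < π / 2)
    (hm : m ≤ 0) (hmin : ∀ h' : ℝ, |h'| ≤ K * b' → m ≤ psi (r2 t θ) K u b' h')
    {l : Lb} (hl : l.Ok C (Xl t θ)) (hb : l.b ≤ b') : l.b / b' * m ≤ lam t θ K u l := by
  have hb0 := hl.b0
  have hb' : 0 < b' := lt_of_lt_of_le hb0 hb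
  have hKbb : K * l.b ≤ K * b' := mul_le_mul_of_nonneg_left hb hK.le
  have hq : 0 < l.b / b' := div_pos hb0 hb'
  rcases le_or_gt (K * l.b) |l.h| with h | h
  · have h1 := lam_turn ht hl hK (by linarith) h u
    have h2 : l.b / b' * m ≤ 0 := mul_nonpos_of_nonneg_of_nonpos hq.le hm
    linarith
  · have h1 := lam_nat ht hl hK (lt_of_le_of_lt hKbb hKb) u
    have h2 := psi_scale (u := u) (r2_pos ht θ) hK hb0 hb hKb h.le
    have h3 : |l.h * b' / l.b| ≤ K * b' := by
      rw [abs_div, abs_mul, abs_of_pos hb', abs_of_pos hb0, div_le_iff₀ hb0]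
      have := mul_le_mul_of_nonneg_right h.le hb'.le
      linarith
    have h4 := mul_le_mul_of_nonneg_left (hmin _ h3) hq.le
    linarith

theorem sum_short {t θ K u b' m C : ℝ} (ht : 0 < t) (hK : 0 < K) (hb' : 0 < b')
    (hKb : K * b' < π / 2) (hm : m ≤ 0)
    (hmin : ∀ h' : ℝ, |h'| ≤ K * b' → m ≤ psi (r2 t θ) K u b' h')
    {L : List Lb} (hL : ∀ l ∈ L, l.Ok C (Xl t θ) ∧ l.b ≤ b') :
    (L.map Lb.b).sum / b' * m ≤ (L.map (lam t θ K u)).sum := by
  induction L with
  | nil => simp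
  | cons a L ih =>
    have h1 := ih (fun l hl => hL l (List.mem_cons_of_mem _ hl))
    have ha := hL a List.mem_cons_self
    have h2 := lam_short (u := u) ht hK hKb hm hmin ha.1 ha.2
    simp only [List.map_cons, List.sum_cons]
    have e : (a.b + (L.map Lb.b).sum) / b' * m = a.b / b' * m + (L.map Lb.b).sum / b' * m := by
      ring
    rw [e]
    linarith

end Pool.Agent.H15.PM
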