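import Pool.Agent.H15.PM.W
import Pool.Agent.H15.PM.D

/-!
# Lobes: the natural bound

* `M_ge`: `M >= 2 x b` (`Lb.Ok.ge`).
* `lam_nat`: `K b < π/2`: `lam >= psi` (`nat` with `ρ = √x`, `x = 4 r2`, divided by `8`).
-/

open Complex MeasureTheory Set Filter Topology
open scoped ComplexConjugate Real

namespace Pool.Agent.H15.PM

open Pool.Agent.H36.SZ

theorem Xl_eq (t θ : ℝ) : Xl t θ = 4 * r2 t θ := by
  unfold Xl r2; ring

theorem r2_pos {t : ℝ} (ht : 0 < t) (θ : ℝ) : 0 < r2 t θ := by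
  have h1 : 0 < Real.sinh t := Real.sinh_pos_iff.2 ht
  unfold r2; positivity

variable {l : Lb} {C x : ℝ}

theorem M_ge (hl : l.Ok C x) : 2 * x * l.b ≤ l.M := by
  have hb := hl.b0
  have hle : -l.b ≤ l.b := by linarith
  have cg : Continuous l.g := by
    rw [continuous_iff_continuousAt]
    exact fun u => (hl.der u).continuousAt
  have i1 : IntervalIntegrable (fun _ : ℝ => x) volume (-l.b) l.b := intervalIntegrable_const
  have i2 : IntervalIntegrable (fun u => ‖l.g u‖ ^ 2) volume (-l.b) l.b :=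
    (cg.norm.pow 2).intervalIntegrable _ _
  have h := intervalIntegral.integral_mono_on hle i1 i2 (fun u hu => hl.ge u hu)
  rw [intervalIntegral.integral_const, smul_eq_mul] at h
  unfold Lb.M
  calc 2 * x * l.b = (l.b - -l.b) * x := by ring
    _ ≤ _ := h

theorem lam_nat {t θ : ℝ} (ht : 0 < t) {l : Lb} (hl : l.Ok C (Xl t θ)) {K : ℝ} (hK : 0 < K)
    (hKb : K * l.b < π / 2) (u : ℝ) : psi (r2 t θ) K u l.b l.h ≤ lam t θ K u l := by
  have hb := hl.b0
  have hr := r2_pos ht θ
  have hX : 0 ≤ Xl t θ := by rw [Xl_eq]; positivity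
  have cg : Continuous l.g := by
    rw [continuous_iff_continuousAt]
    exact fun u => (hl.der u).continuousAt
  have h := nat (ρ := √(Xl t θ)) hb (fun s _ => hl.der s) hl.cont.continuousOn hl.er hl.el hK hKb
  rw [Real.sq_sqrt hX] at h
  have e : ∫ s in (-l.b)..l.b, (‖l.g' s‖ ^ 2 - K ^ 2 * ‖l.g s‖ ^ 2) = l.E - K ^ 2 * l.M := by
    unfold Lb.E Lb.M
    rw [intervalIntegral.integral_sub, intervalIntegral.integral_const_mul]
    · exact (hl.cont.norm.pow 2).intervalIntegrable _ _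
    · exact ((cg.norm.pow 2).const_mul _ |>.intervalIntegrable _ _)
  rw [e, Xl_eq] at h
  unfold psi lam
  rw [Xl_eq]
  have e2 : 2 * (4 * r2 t θ) * K * (Real.cos (2 * (K * l.b)) - Real.cos (2 * l.h)) /
      Real.sin (2 * (K * l.b)) =
      8 * (r2 t θ * K * (Real.cos (2 * (K * l.b)) - Real.cos (2 * l.h)) /
        Real.sin (2 * (K * l.b))) := by ring
  rw [e2] at h
  linarith

end Pool.Agent.H15.PM
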