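import Pool.Agent.H15.PM.J
import Pool.Agent.H15.PM.Q

/-!
# No contact point: reduction to the two lobe inequality and to long lobes

Region `A`: `T tan θ < 1` and `lamJ t θ 1 (S C) <= 0`.
* `case0`: some lobe has `b > θ`. PROOF. Otherwise `sum_short` (`K = 1`, `u = S C`, `b' = θ`,
  `m = lamJ`, `psi_min`) and `sum b <= 2 θ` give `sum lam >= 2 lamJ`, against `contact`.
* `case1`: a lobe with `θ < b <= π/2` has `|h| < b`. PROOF. `L = s ++ l :: s'`
  (`List.append_of_mem`), the others have total `< θ`, so each `<= θ`; `lam_turn` for `l` with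
  `K = 1`, `sum_short` for `L'`: `sum lam >= lamJ >= 2 lamJ`.
* `rest`: `L = s ++ l :: s'` (`List.append_of_mem`), the others `s ++ s'` have `b > 0` and total
  `<= 2 θ - l.b`, so each has `b <= b' = 2 θ - l.b`; if `b' > 0`: `sum_short`, and
  `(sum / b') m >= m` as `m <= 0`; if `b' = 0` the list of the others is empty. `contact`.
* `no_cl`: `case0` gives `l` with `l.b > θ`; `hlong`, `case1`: `θ < l.b <= π/2`, `|l.h| < l.b`,
  `l.b <= 2 θ` (`Cl.sb`); `hI` gives `K, u, m`; `rest` against `lam_big` or `lam_nat`.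
-/

open Complex MeasureTheory Set Filter Topology
open scoped ComplexConjugate Real

namespace Pool.Agent.H15.PM

open Pool.Agent.H36.SZ

private theorem N_split {L : List Lb} {l : Lb} (hl : l ∈ L) :
    ∃ L' : List Lb, (∀ f : Lb → ℝ, (L.map f).sum = f l + (L'.map f).sum) ∧ ∀ x ∈ L', x ∈ L := by
  obtain ⟨s, s', rfl⟩ := List.append_of_mem hl
  refine ⟨s ++ s', fun f => ?_, fun x hx => ?_⟩
  · simp only [List.map_append, List.map_cons, List.sum_append, List.sum_cons]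
    ring
  · rcases List.mem_append.1 hx with h | h
    · exact List.mem_append_left _ h
    · exact List.mem_append_right _ (List.mem_cons_of_mem _ h)

private theorem N_nonneg {L : List Lb} (h : ∀ l ∈ L, 0 < l.b) : 0 ≤ (L.map Lb.b).sum := by
  refine List.sum_nonneg fun x hx => ?_
  obtain ⟨l, hl, rfl⟩ := List.mem_map.1 hx
  exact (h l hl).le

private theorem N_le {L : List Lb} (h : ∀ l ∈ L, 0 < l.b) {l : Lb} (hl : l ∈ L) :
    l.b ≤ (L.map Lb.b).sum := by
  obtain ⟨L', h1, h2⟩ := N_split hl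
  rw [h1]
  have h3 := N_nonneg fun x hx => h x (h2 x hx)
  linarith

theorem case0 {t θ : ℝ} (ht : 0 < t) (h0 : 0 < θ) (h1 : θ < π / 2)
    (hT : Real.tanh t * Real.tan θ < 1)
    (hA : lamJ t θ 1 (Real.sinh t * Real.cosh t) ≤ 0) {L : List Lb} (hL : Cl t θ L) :
    ∃ l ∈ L, θ < l.b := by
  by_contra hcon
  push Not at hcon
  have h2 := sum_short (u := Real.sinh t * Real.cosh t) (C := Real.cosh t) ht one_pos h0
    (by linarith) hA (psi_min ht h0 h1 hT hA) fun l hl => ⟨hL.ok l hl, hcon l hl⟩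
  have h3 := contact ht hL one_pos (Real.sinh t * Real.cosh t)
  have h4 : (L.map Lb.b).sum / θ ≤ 2 := by
    rw [div_le_iff₀ h0]
    exact hL.sb
  have h5 := mul_le_mul_of_nonpos_right h4 hA
  linarith

theorem case1 {t θ : ℝ} (ht : 0 < t) (h0 : 0 < θ) (h1 : θ < π / 2)
    (hT : Real.tanh t * Real.tan θ < 1)
    (hA : lamJ t θ 1 (Real.sinh t * Real.cosh t) ≤ 0) {L : List Lb} (hL : Cl t θ L) {l : Lb}
    (hl : l ∈ L) (hb : θ < l.b) (hb' : l.b ≤ π / 2) : |l.h| < l.b := by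
  by_contra hcon
  push Not at hcon
  obtain ⟨L', hs, hmem⟩ := N_split hl
  have hpos : ∀ x ∈ L', 0 < x.b := fun x hx => (hL.ok x (hmem x hx)).b0
  have hsb := hL.sb
  rw [hs] at hsb
  have hle : ∀ x ∈ L', x.b ≤ θ := fun x hx => by
    have := N_le hpos hx
    linarith
  have h2 := sum_short (u := Real.sinh t * Real.cosh t) (C := Real.cosh t) ht one_pos h0
    (by linarith) hA (psi_min ht h0 h1 hT hA) fun x hx => ⟨hL.ok x (hmem x hx), hle x hx⟩
  have h3 := contact ht hL one_pos (Real.sinh t * Real.cosh t)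
  rw [hs] at h3
  have h6 := lam_turn ht (hL.ok l hl) one_pos (by linarith) (by linarith)
    (Real.sinh t * Real.cosh t)
  have h4 : (L'.map Lb.b).sum / θ ≤ 1 := by
    rw [div_le_iff₀ h0]
    linarith
  have h5 := mul_le_mul_of_nonpos_right h4 hA
  linarith

/-- the others of a lobe `l` with `b > θ` have total length `<= 2 θ - b` (none if `b = 2 θ`) -/
theorem rest {t θ : ℝ} (ht : 0 < t) {L : List Lb} (hL : Cl t θ L) {l : Lb}
    (hl : l ∈ L) (hb : θ < l.b) {K u m : ℝ} (hK : 0 < K)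
    (hKb : K * (2 * θ - l.b) < π / 2) (hm : m ≤ 0)
    (hmin : ∀ h' : ℝ, |h'| ≤ K * (2 * θ - l.b) → m ≤ psi (r2 t θ) K u (2 * θ - l.b) h') :
    lam t θ K u l + m < 2 * lamJ t θ K u := by
  obtain ⟨L', hs, hmem⟩ := N_split hl
  have hpos : ∀ x ∈ L', 0 < x.b := fun x hx => (hL.ok x (hmem x hx)).b0
  have hsb := hL.sb
  rw [hs] at hsb
  have h3 := contact ht hL hK u
  rw [hs] at h3
  by_cases hb' : 0 < 2 * θ - l.b
  · have hle : ∀ x ∈ L', x.b ≤ 2 * θ - l.b := fun x hx => by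
      have := N_le hpos hx
      linarith
    have h2 := sum_short (u := u) (C := Real.cosh t) ht hK hb' hKb hm hmin
      fun x hx => ⟨hL.ok x (hmem x hx), hle x hx⟩
    have h4 : (L'.map Lb.b).sum / (2 * θ - l.b) ≤ 1 := by
      rw [div_le_iff₀ hb']
      linarith
    have h5 := mul_le_mul_of_nonpos_right h4 hm
    linarith
  · have h4 : L' = [] := by
      rw [List.eq_nil_iff_forall_not_mem]
      intro x hx
      have h5 := N_le hpos hx
      have h6 := hpos x hx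
      linarith
    subst h4
    simp only [List.map_nil, List.sum_nil] at h3
    linarith

/-- the two lobe inequality at `b = θ + e` and turning `h` -/
def TwoLobe (t θ b h : ℝ) : Prop :=
  ∃ K u m : ℝ, 0 < K ∧ K * (2 * θ - b) < π / 2 ∧ K * b < π ∧ m ≤ 0 ∧
    (∀ h' : ℝ, |h'| ≤ K * (2 * θ - b) → m ≤ psi (r2 t θ) K u (2 * θ - b) h') ∧
    ((π / 2 ≤ K * b ∨ K * (Real.cosh t * Real.sin b) * Real.cos (K * b) ≤
        √(r2 t θ) * |Real.cos h| * Real.sin (K * b)) ∧
      2 * lamJ t θ K u ≤ Bg (Real.cosh t) (r2 t θ) K u b h + m ∨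
      K * b < π / 2 ∧ 2 * lamJ t θ K u ≤ psi (r2 t θ) K u b h + m)

theorem no_cl {t θ : ℝ} (ht : 0 < t) (h0 : 0 < θ) (h1 : θ < π / 2)
    (hT : Real.tanh t * Real.tan θ < 1)
    (hA : lamJ t θ 1 (Real.sinh t * Real.cosh t) ≤ 0)
    (hI : ∀ b h : ℝ, θ < b → b ≤ π / 2 → b ≤ 2 * θ → |h| ≤ b → TwoLobe t θ b h)
    {L : List Lb} (hlong : ∀ l ∈ L, l.b ≤ π / 2) : ¬ Cl t θ L := by
  intro hL
  obtain ⟨l, hl, hb⟩ := case0 ht h0 h1 hT hA hL
  have hb2 := hlong l hl
  have hh := case1 ht h0 h1 hT hA hL hl hb hb2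
  have hb3 : l.b ≤ 2 * θ := (N_le (fun x hx => (hL.ok x hx).b0) hl).trans hL.sb
  obtain ⟨K, u, m, hK, hK1, hK2, hm, hmin, h⟩ := hI l.b l.h hb hb2 hb3 hh.le
  have h2 := rest ht hL hl hb hK hK1 hm hmin
  rcases h with ⟨hv, h3⟩ | ⟨hv, h3⟩
  · have h4 := lam_big ht (hL.ok l hl) hK hK2 u hv
    linarith
  · have h4 := lam_nat ht (hL.ok l hl) hK hv u
    linarith

end Pool.Agent.H15.PM
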