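import Pool.Agent.H15.PM.A
import Pool.Agent.H15.PM.B

/-!
# The natural inequality and the quasi periodic Wirtinger inequality on `[-b, b]`

`g` is `C^1` on `[-b, b]`, `g b = ρ e^{ih}`, `g (-b) = ρ e^{-ih}`.
* `nat`: `0 < K b < π/2`: `∫ |g'|^2 - K^2 |g|^2 >= 2 ρ^2 K (cos 2Kb - cos 2h) / sin 2Kb`.
  PROOF. `split`, `half_e` for `ev g`, `half_o` for `od g`, `ev_b`, `od_b`, and
  `- tan B cos^2 h + cot B sin^2 h = (cos 2B - cos 2h) / sin 2B`.
* `wirt`: `|h| <= π/2`: `∫ |g'|^2 >= (h/b)^2 ∫ |g|^2`.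
  PROOF. `h = 0` trivial. `0 < |h| < π/2`: `nat` with `K = |h|/b` (right side `0`).
  `|h| = π/2`: `K = π/(2b)`: `ev g b = 0`, `half_e'` and `half_o` (`cos (K b) = 0`).
-/

open Complex MeasureTheory Set Filter Topology
open scoped ComplexConjugate Real

namespace Pool.Agent.H15.PM

variable {g g' : ℝ → ℂ} {b ρ h : ℝ}

theorem nat (hb : 0 < b) (hg : ∀ s ∈ Icc (-b) b, HasDerivAt g (g' s) s)
    (hc : ContinuousOn g' (Icc (-b) b)) (hr : g b = (ρ : ℂ) * exp (h * I))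
    (hl : g (-b) = (ρ : ℂ) * exp (-(h * I))) {K : ℝ} (hK : 0 < K) (hKb : K * b < π / 2) :
    2 * ρ ^ 2 * K * (Real.cos (2 * (K * b)) - Real.cos (2 * h)) / Real.sin (2 * (K * b)) ≤
      ∫ s in (-b)..b, (‖g' s‖ ^ 2 - K ^ 2 * ‖g s‖ ^ 2) := by
  have hpi := Real.pi_pos
  have hB0 : 0 < K * b := mul_pos hK hb
  have h1 := half_e (ev_der hg) (od_cont hc) hK hb.le hKb
  have h2 := half_o (od_der hg) (ev_cont hc) (od_zero g) hK hb (by linarith)
  rw [ev_b hr hl] at h1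
  rw [od_b hr hl] at h2
  rw [split hb.le hg hc K]
  have hs : 0 < Real.sin (K * b) := Real.sin_pos_of_pos_of_lt_pi hB0 (by linarith)
  have hcs : 0 < Real.cos (K * b) := Real.cos_pos_of_mem_Ioo ⟨by linarith, hKb⟩
  have e : 2 * ρ ^ 2 * K * (Real.cos (2 * (K * b)) - Real.cos (2 * h)) / Real.sin (2 * (K * b)) =
      2 * (-(K * Real.tan (K * b)) * (ρ ^ 2 * Real.cos h ^ 2)) +
      2 * (K * (Real.cos (K * b) / Real.sin (K * b)) * (ρ ^ 2 * Real.sin h ^ 2)) := by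
    rw [Real.cos_two_mul, Real.cos_two_mul, Real.sin_two_mul, Real.tan_eq_sin_div_cos,
      Real.sin_sq h]
    have q := Real.sin_sq_add_cos_sq (K * b)
    have q' : Real.sin (K * b) ^ 2 = 1 - Real.cos (K * b) ^ 2 := by linarith
    field_simp
    rw [q']
    ring
  rw [e]
  linarith

theorem wirt (hb : 0 < b) (hg : ∀ s ∈ Icc (-b) b, HasDerivAt g (g' s) s)
    (hc : ContinuousOn g' (Icc (-b) b)) (hr : g b = (ρ : ℂ) * exp (h * I))
    (hl : g (-b) = (ρ : ℂ) * exp (-(h * I))) (hh : |h| ≤ π / 2) :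
    0 ≤ ∫ s in (-b)..b, (‖g' s‖ ^ 2 - (h / b) ^ 2 * ‖g s‖ ^ 2) := by
  have hpi := Real.pi_pos
  by_cases h0 : h = 0
  · subst h0
    refine intervalIntegral.integral_nonneg (by linarith) fun s _ => ?_
    simp
  have ha : 0 < |h| := abs_pos.2 h0
  have hKb : |h| / b * b = |h| := div_mul_cancel₀ _ hb.ne'
  have hK : 0 < |h| / b := div_pos ha hb
  have hsq : (h / b) ^ 2 = (|h| / b) ^ 2 := by rw [div_pow, div_pow, sq_abs]
  rw [hsq]
  rcases lt_or_eq_of_le hh with hlt | heq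
  · have h1 := nat hb hg hc hr hl hK (by rw [hKb]; exact hlt)
    rw [hKb] at h1
    have e : Real.cos (2 * |h|) = Real.cos (2 * h) := by
      rcases abs_choice h with h2 | h2
      · rw [h2]
      · rw [h2, mul_neg, Real.cos_neg]
    rw [e, sub_self, mul_zero, zero_div] at h1
    exact h1
  · have hcos : Real.cos h = 0 := by
      rw [← Real.cos_abs, heq, Real.cos_pi_div_two]
    have hev : ev g b = 0 := by
      have h3 := ev_b hr hl
      rw [hcos] at h3
      have h4 : ‖ev g b‖ ^ 2 = 0 := by rw [h3]; ring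
      exact norm_eq_zero.1 (pow_eq_zero_iff (two_ne_zero)|>.1 h4)
    have h1 := half_e' (ev_der hg) (od_cont hc) hK hb (by rw [hKb, heq]) hev
    have h2 := half_o (od_der hg) (ev_cont hc) (od_zero g) hK hb (by rw [hKb, heq]; linarith)
    rw [hKb, heq, Real.cos_pi_div_two, zero_div, mul_zero, zero_mul] at h2
    rw [split hb.le hg hc]
    rw [heq] at h1 ⊢
    linarith

end Pool.Agent.H15.PM
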